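import Pool.Agent.H99.HN.Targets
import Pool.Agent.H99.HM.Main

/-!
# (HEX) existence of the multiplier
-/

set_option autoImplicit false

namespace Pool.Agent.H66.HN

open Pool.Agent.H99.HM Pool.Agent.H99.HN
open MeasureTheory Set Filter Topology Real

/-- data -/
structure Hx (s : ℝ → ℝ) (ν : Measure ℝ) (h : ℝ → ℝ) (C : ℝ) : Prop where
  sc : ContinuousOn s (Ici 0)
  sp : ∀ t, 0 < t → 0 < s t
  M0 : 0 < Mf s
  S0 : ∀ t, 0 < t → 0 < Sf s t
  Sc : ContinuousOn (Sf s) (Ici 0)
  kn : ∀ r t, 0 < r → 0 < t → 0 ≤ kf s r t ∧ kf s r t ≤ Sf s r * Jf s t / Mf s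
  ka : ∀ t, 0 < t → AntitoneOn (fun r => kf s r t / Sf s r) (Ioi 0)
  kd : ∀ t r, 0 < t → 0 < r → HasDerivAt (fun r => kf s r t)
    (4 * π * s r ^ 2 * (Jf s t / Mf s - if t < r then 1 / t - 1 / r else 0)) r
  kc : ContinuousOn (fun p : ℝ × ℝ => kf s p.1 p.2) (Ioi 0 ×ˢ Ioi 0)
  J0 : ∀ t, 0 < t → 0 < Jf s t
  Jc : ContinuousOn (Jf s) (Ioi 0)
  JL : ∀ t r, 0 < t → t ≤ r → Jf s t - Jf s r = Mf s * (1 / t - 1 / r) - Lam s t r
  a0 : ∀ t, 0 < t → 0 < af s t
  ac : ContinuousOn (af s) (Ici 0)
  ab : ∃ C, ∀ r ∈ Ioc (0 : ℝ) 1, 2 * Sf s r / (4 * π * s r ^ 2) ≤ C * r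
  fin : IsFiniteMeasure ν
  inv : Integrable (fun r : ℝ => 1 / r) ν
  ae : ∀ᵐ t ∂ν, 0 < t
  C0 : 0 ≤ C
  h0 : h 0 = 1
  hm : Measurable h
  hb : ∀ r, 0 ≤ r → 1 ≤ h r ∧ h r ≤ 1 + C * af s r
  Ji : Integrable (fun t => Jf s t * h t) ν
  fix : ∀ r, 0 < r → h r = 1 + ∫ σ in (0 : ℝ)..r, 2 / (4 * π * s σ ^ 2) * ∫ t, kf s σ t * h t ∂ν

namespace Hx

variable {s : ℝ → ℝ} {ν : Measure ℝ} {h : ℝ → ℝ} {C : ℝ}

theorem res (D : Hx s ν h C) : ν.restrict (Ioi 0) = ν := Measure.restrict_eq_self_of_ae_mem D.ae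

theorem meas (D : Hx s ν h C) {f : ℝ → ℝ} (hf : ContinuousOn f (Ioi 0)) :
    AEStronglyMeasurable f ν := by
  have := hf.aestronglyMeasurable (μ := ν) measurableSet_Ioi
  rwa [D.res] at this

theorem hbd (D : Hx s ν h C) (R : ℝ) : ∃ K, 0 ≤ K ∧ ∀ t, 0 < t → t ≤ R → |h t| ≤ K := by
  obtain ⟨K, hK⟩ := (isCompact_Icc (a := (0 : ℝ)) (b := R)).exists_bound_of_continuousOn
    (D.ac.mono Icc_subset_Ici_self)
  refine ⟨1 + C * |K|, by have := D.C0; positivity, fun t ht htR => ?_⟩
  obtain ⟨h1, h2⟩ := D.hb t ht.le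
  have h3 := hK t ⟨ht.le, htR⟩
  rw [abs_of_nonneg (by linarith)]
  refine h2.trans ?_
  have h4 : af s t ≤ |K| := (le_abs_self _).trans (h3.trans (le_abs_self _))
  have := mul_le_mul_of_nonneg_left h4 D.C0
  linarith

theorem hI (D : Hx s ν h C) (r : ℝ) : IntegrableOn h (Iio r) ν := by
  haveI := D.fin
  obtain ⟨K, hK0, hK⟩ := D.hbd r
  refine Integrable.mono' (integrable_const K) D.hm.aestronglyMeasurable ?_
  refine (ae_restrict_iff' measurableSet_Iio).2 ?_
  filter_upwards [D.ae] with t ht htr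
  exact hK t ht (le_of_lt htr)

theorem invI (D : Hx s ν h C) (r : ℝ) (hr : 0 < r) :
    IntegrableOn (fun t => (1 / t - 1 / r) * h t) (Iio r) ν := by
  haveI := D.fin
  obtain ⟨K, hK0, hK⟩ := D.hbd r
  refine Integrable.mono' ((D.inv.mul_const K).integrableOn) ?_ ?_
  · refine AEStronglyMeasurable.restrict ?_
    exact (D.inv.1.sub aestronglyMeasurable_const).mul D.hm.aestronglyMeasurable
  refine (ae_restrict_iff' measurableSet_Iio).2 ?_
  filter_upwards [D.ae] with t ht htr
  have htr' : t < r := htr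
  have h1 := hK t ht htr'.le
  rw [norm_mul]
  have h2 : 0 ≤ 1 / t - 1 / r := by
    rw [sub_nonneg]
    exact one_div_le_one_div_of_le ht htr'.le
  have h3 : 0 < 1 / r := by positivity
  have h4 : ‖1 / t - 1 / r‖ ≤ 1 / t := by
    rw [Real.norm_of_nonneg h2]
    linarith
  exact mul_le_mul h4 h1 (norm_nonneg _) (by positivity)

/-- the indicator form -/
noncomputable def ind (t r : ℝ) : ℝ := if t < r then 1 / t - 1 / r else 0

theorem ind_bd {t r : ℝ} (ht : 0 < t) (hr : 0 < r) :
    0 ≤ ind t r ∧ ind t r ≤ 1 / t := by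
  unfold ind
  split_ifs with h
  · have h2 : 0 ≤ 1 / t - 1 / r := by
      rw [sub_nonneg]
      exact one_div_le_one_div_of_le ht h.le
    have h3 : 0 < 1 / r := by positivity
    exact ⟨h2, by linarith⟩
  · exact ⟨le_rfl, by positivity⟩

theorem ind_int (D : Hx s ν h C) (r : ℝ) (hr : 0 < r) :
    Integrable (fun t => ind t r * h t) ν ∧
    ∫ t, ind t r * h t ∂ν = ∫ t in Iio r, (1 / t - 1 / r) * h t ∂ν := by
  have e : (fun t => ind t r * h t) = (Iio r).indicator (fun t => (1 / t - 1 / r) * h t) := by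
    funext t
    by_cases ht : t < r
    · rw [Set.indicator_of_mem (by exact ht)]
      simp [ind, ht]
    · rw [Set.indicator_of_notMem (by exact ht)]
      simp [ind, ht]
  rw [e]
  exact ⟨(D.invI r hr).integrable_indicator measurableSet_Iio,
    integral_indicator measurableSet_Iio⟩

/-- `A` -/
noncomputable def A (s : ℝ → ℝ) (ν : Measure ℝ) (h : ℝ → ℝ) (r : ℝ) : ℝ :=
  ∫ t, kf s r t * h t ∂ν

/-- `η` -/
noncomputable def eta (s : ℝ → ℝ) (ν : Measure ℝ) (h : ℝ → ℝ) (r : ℝ) : ℝ :=
  -(∫ t, Jf s t * h t ∂ν) / Mf s + ∫ t in Iio r, (1 / t - 1 / r) * h t ∂ν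

theorem kI (D : Hx s ν h C) (r : ℝ) (hr : 0 < r) :
    Integrable (fun t => kf s r t * h t) ν := by
  refine Integrable.mono' (D.Ji.const_mul (Sf s r / Mf s)) ?_ ?_
  · refine (D.meas ?_).mul D.hm.aestronglyMeasurable
    have h5 : ContinuousOn (fun t : ℝ => (r, t)) (Ioi 0) := by fun_prop
    have h6 := D.kc.comp h5 (fun t ht => ⟨hr, ht⟩)
    exact h6
  · filter_upwards [D.ae] with t ht
    obtain ⟨h1, h2⟩ := D.kn r t hr ht
    have h3 := (D.hb t ht.le).1
    rw [Real.norm_of_nonneg (by positivity)]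
    calc kf s r t * h t ≤ (Sf s r * Jf s t / Mf s) * h t :=
          mul_le_mul_of_nonneg_right h2 (by linarith)
      _ = _ := by ring

theorem A_bd (D : Hx s ν h C) (r : ℝ) (hr : 0 < r) :
    0 ≤ A s ν h r ∧ A s ν h r ≤ Sf s r / Mf s * ∫ t, Jf s t * h t ∂ν := by
  refine ⟨integral_nonneg_of_ae ?_, ?_⟩
  · filter_upwards [D.ae] with t ht
    have h1 := (D.kn r t hr ht).1
    have h3 := (D.hb t ht.le).1
    change 0 ≤ kf s r t * h t
    positivity
  · rw [← integral_const_mul]
    refine integral_mono_ae (D.kI r hr) (D.Ji.const_mul _) ?_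
    filter_upwards [D.ae] with t ht
    have h2 := (D.kn r t hr ht).2
    have h3 := (D.hb t ht.le).1
    calc kf s r t * h t ≤ (Sf s r * Jf s t / Mf s) * h t :=
          mul_le_mul_of_nonneg_right h2 (by linarith)
      _ = _ := by ring

theorem ader (D : Hx s ν h C) (r : ℝ) (hr : 0 < r) :
    HasDerivAt (A s ν h) (-(eta s ν h r * (4 * π * s r ^ 2))) r := by
  haveI := D.fin
  obtain ⟨K, hK0, hK⟩ := D.hbd (2 * r)
  -- bound of the weight on `[r/2, 2r]`
  have hsc : ContinuousOn (fun x => 4 * π * s x ^ 2) (Icc (r / 2) (2 * r)) := by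
    refine continuousOn_const.mul ((D.sc.mono ?_).pow 2)
    intro x hx
    have : r / 2 ≤ x := hx.1
    change 0 ≤ x
    linarith
  obtain ⟨W, hW⟩ := isCompact_Icc.exists_bound_of_continuousOn hsc
  have hW0 : 0 ≤ W := (norm_nonneg _).trans (hW r ⟨by linarith, by linarith⟩)
  have hball : ∀ x ∈ Metric.ball r (r / 2), r / 2 < x ∧ x < 2 * r := by
    intro x hx
    rw [Metric.mem_ball, Real.dist_eq, abs_lt] at hx
    constructor <;> linarith [hx.1, hx.2]
  have key := hasDerivAt_integral_of_dominated_loc_of_deriv_le (μ := ν) (𝕜 := ℝ)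
    (F := fun x t => kf s x t * h t)
    (F' := fun x t => 4 * π * s x ^ 2 * (Jf s t / Mf s - ind t x) * h t)
    (x₀ := r) (s := Metric.ball r (r / 2)) (bound := fun t => W * (Jf s t * h t / Mf s + 1 / t * K))
    (Metric.ball_mem_nhds r (by linarith)) ?_ (D.kI r hr) ?_ ?_ ?_ ?_
  · have h1 := key.2
    have hmain : ∫ t, 4 * π * s r ^ 2 * (Jf s t / Mf s - ind t r) * h t ∂ν =
        -(eta s ν h r * (4 * π * s r ^ 2)) := by
      have e : ∀ t, 4 * π * s r ^ 2 * (Jf s t / Mf s - ind t r) * h t =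
          4 * π * s r ^ 2 * ((Mf s)⁻¹ * (Jf s t * h t) - ind t r * h t) := by
        intro t
        ring
      simp_rw [e]
      rw [integral_const_mul, integral_sub (D.Ji.const_mul _) (D.ind_int r hr).1,
        integral_const_mul, (D.ind_int r hr).2, eta]
      ring
    rw [hmain] at h1
    exact h1
  · filter_upwards [Metric.ball_mem_nhds r (show 0 < r / 2 by linarith)] with x hx
    have hx0 : 0 < x := by linarith [(hball x hx).1]
    exact (D.kI x hx0).1
  · have h1 : Integrable (fun t => 4 * π * s r ^ 2 * (Jf s t / Mf s - ind t r) * h t) ν := by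
      have e : ∀ t, 4 * π * s r ^ 2 * (Jf s t / Mf s - ind t r) * h t =
          4 * π * s r ^ 2 * ((Mf s)⁻¹ * (Jf s t * h t) - ind t r * h t) := by
        intro t
        ring
      simp_rw [e]
      exact (((D.Ji.const_mul _).sub (D.ind_int r hr).1).const_mul _)
    exact h1.1
  · filter_upwards [D.ae] with t ht x hx
    obtain ⟨hx1, hx2⟩ := hball x hx
    have hx0 : 0 < x := by linarith
    have h1 := hW x ⟨hx1.le, hx2.le⟩
    have hJ := D.J0 t ht
    have hM := D.M0
    have h3 := (D.hb t ht.le).1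
    have hh : 0 ≤ h t := by linarith
    rw [mul_assoc, norm_mul]
    refine mul_le_mul h1 ?_ (norm_nonneg _) hW0
    have e : (Jf s t / Mf s - ind t x) * h t = Jf s t * h t / Mf s - ind t x * h t := by ring
    rw [e]
    have hi := ind_bd ht hx0
    have h4 : |ind t x * h t| ≤ 1 / t * K := by
      unfold ind
      split_ifs with htx
      · rw [abs_mul]
        have := ind_bd ht hx0
        unfold ind at this
        rw [if_pos htx] at this
        refine mul_le_mul ?_ (hK t ht (by linarith)) (abs_nonneg _) (by positivity)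
        rw [abs_of_nonneg this.1]
        exact this.2
      · simp
        positivity
    have h5 : 0 ≤ Jf s t * h t / Mf s := by positivity
    rw [Real.norm_eq_abs]
    calc |Jf s t * h t / Mf s - ind t x * h t| ≤ |Jf s t * h t / Mf s| + |ind t x * h t| :=
          abs_sub _ _
      _ ≤ _ := by
        rw [abs_of_nonneg h5]
        linarith
  · have h1 : Integrable (fun t => Jf s t * h t / Mf s) ν := D.Ji.div_const _
    exact (h1.add (D.inv.mul_const K)).const_mul W
  · filter_upwards [D.ae] with t ht x hx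
    have hx0 : 0 < x := by linarith [(hball x hx).1]
    have h6 := D.kd t x ht hx0
    have h7 : (if t < x then 1 / t - 1 / x else 0) = ind t x := rfl
    rw [h7] at h6
    exact h6.mul_const (h t)

theorem etac (D : Hx s ν h C) : ContinuousOn (eta s ν h) (Ioi 0) := by
  haveI := D.fin
  intro r hr
  have hr : 0 < r := hr
  refine ContinuousAt.continuousWithinAt ?_
  have h1 : ContinuousAt (fun x => ∫ t, ind t x * h t ∂ν) r := by
    obtain ⟨K, hK0, hK⟩ := D.hbd (2 * r)
    have hnb : ∀ᶠ x in 𝓝 r, 0 < x ∧ x < 2 * r := by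
      filter_upwards [Ioo_mem_nhds (show (0 : ℝ) < r from hr) (show r < 2 * r by linarith)]
        with x hx
      exact ⟨hx.1, hx.2⟩
    refine continuousAt_of_dominated (bound := fun t => 1 / t * K) ?_ ?_ (D.inv.mul_const K) ?_
    · filter_upwards [hnb] with x hx
      exact (D.ind_int x hx.1).1.1
    · filter_upwards [hnb] with x hx
      filter_upwards [D.ae] with t ht
      unfold ind
      split_ifs with htx
      · have := ind_bd ht hx.1
        unfold ind at this
        rw [if_pos htx] at this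
        rw [norm_mul]
        refine mul_le_mul ?_ (hK t ht (by linarith [hx.2])) (norm_nonneg _) (by positivity)
        rw [Real.norm_of_nonneg this.1]
        exact this.2
      · simp
        positivity
    · filter_upwards [D.ae] with t ht
      refine ContinuousAt.mul ?_ continuousAt_const
      have e : ∀ x, 0 < x → ind t x = max (1 / t - 1 / x) 0 := by
        intro x hx
        unfold ind
        split_ifs with htx
        · rw [max_eq_left]
          rw [sub_nonneg]
          exact one_div_le_one_div_of_le ht htx.le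
        · rw [max_eq_right]
          rw [sub_nonpos]
          exact one_div_le_one_div_of_le hx (not_lt.1 htx)
      have hc : ContinuousAt (fun x : ℝ => max (1 / t - 1 / x) 0) r := by
        refine Filter.Tendsto.max ?_ tendsto_const_nhds
        change ContinuousAt (fun x : ℝ => 1 / t - 1 / x) r
        refine continuousAt_const.sub ?_
        exact continuousAt_const.div continuousAt_id hr.ne'
      refine hc.congr ?_
      filter_upwards [hnb] with x hx
      exact (e x hx.1).symm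
  have h2 : ContinuousAt (fun x => -(∫ t, Jf s t * h t ∂ν) / Mf s + ∫ t, ind t x * h t ∂ν) r :=
    continuousAt_const.add h1
  refine h2.congr ?_
  filter_upwards [lt_mem_nhds hr] with x hx
  rw [(D.ind_int x hx).2]
  rfl

theorem lamI (D : Hx s ν h C) (r : ℝ) (hr : 0 < r) :
    IntegrableOn (fun t => Lam s t r * h t) (Iio r) ν ∧
    ∫ t in Iio r, Lam s t r * h t ∂ν = A s ν h r + eta s ν h r * Sf s r := by
  have hk := D.kI r hr
  have hi := D.ind_int r hr
  -- pointwise identity
  have e : ∀ t, (Iio r).indicator (fun t => Lam s t r * h t) t =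
      kf s r t * h t - Sf s r / Mf s * (Jf s t * h t) + Sf s r * (ind t r * h t) := by
    intro t
    by_cases ht : t < r
    · rw [Set.indicator_of_mem (by exact ht)]
      simp only [kf, ind, if_pos ht]
      ring
    · rw [Set.indicator_of_notMem (by exact ht)]
      simp only [kf, ind, if_neg ht]
      ring
  have hI : Integrable ((Iio r).indicator (fun t => Lam s t r * h t)) ν := by
    rw [funext e]
    exact (hk.sub (D.Ji.const_mul _)).add (hi.1.const_mul _)
  refine ⟨(integrable_indicator_iff measurableSet_Iio).1 hI, ?_⟩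
  rw [← integral_indicator measurableSet_Iio]
  simp_rw [e]
  have hJ2 : Integrable (fun t => Sf s r / Mf s * (Jf s t * h t)) ν := D.Ji.const_mul _
  have hk2 : Integrable (fun t => kf s r t * h t - Sf s r / Mf s * (Jf s t * h t)) ν :=
    hk.sub hJ2
  have hi2 : Integrable (fun t => Sf s r * (ind t r * h t)) ν := hi.1.const_mul _
  rw [integral_add hk2 hi2, integral_sub hk hJ2, integral_const_mul, integral_const_mul, hi.2]
  unfold A eta
  ring

theorem p2 (D : Hx s ν h C) (r : ℝ) (hr : 0 < r) :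
    Jf s r * (∫ t in Iio r, h t ∂ν) + ∫ t in Ici r, Jf s t * h t ∂ν =
      A s ν h r - (Mf s - Sf s r) * eta s ν h r := by
  have hL := D.lamI r hr
  have hM := D.M0
  have h1 : ∫ t in Iio r, Jf s t * h t ∂ν = Jf s r * (∫ t in Iio r, h t ∂ν) +
      Mf s * (∫ t in Iio r, (1 / t - 1 / r) * h t ∂ν) - ∫ t in Iio r, Lam s t r * h t ∂ν := by
    have i1 : IntegrableOn (fun t => Jf s r * h t) (Iio r) ν := (D.hI r).const_mul _
    have i2 : IntegrableOn (fun t => Mf s * ((1 / t - 1 / r) * h t)) (Iio r) ν :=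
      (D.invI r hr).const_mul _
    have i3 : IntegrableOn (fun t => Jf s r * h t + Mf s * ((1 / t - 1 / r) * h t)) (Iio r) ν :=
      i1.add i2
    rw [← integral_const_mul, ← integral_const_mul, ← integral_add i1 i2, ← integral_sub i3 hL.1]
    refine integral_congr_ae ?_
    refine (ae_restrict_iff' measurableSet_Iio).2 ?_
    filter_upwards [D.ae] with t ht htr
    have h2 := D.JL t r ht (le_of_lt htr)
    have h3 : Jf s t = Jf s r + Mf s * (1 / t - 1 / r) - Lam s t r := by linarith
    rw [h3]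
    ring
  have h2 : ∫ t, Jf s t * h t ∂ν = (∫ t in Iio r, Jf s t * h t ∂ν) +
      ∫ t in Ici r, Jf s t * h t ∂ν := by
    have := integral_add_compl (μ := ν) (s := Iio r) measurableSet_Iio D.Ji
    rw [compl_Iio] at this
    exact this.symm
  rw [h1, hL.2] at h2
  unfold eta at h2 ⊢
  field_simp at h2 ⊢
  linarith

theorem aanti (D : Hx s ν h C) : AntitoneOn (fun r => A s ν h r / Sf s r) (Ioi 0) := by
  intro r hr r' hr' hrr
  have hr : 0 < r := hr
  have hr' : 0 < r' := hr'
  have e : ∀ x, A s ν h x / Sf s x = ∫ t, kf s x t / Sf s x * h t ∂ν := by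
    intro x
    unfold A
    rw [← integral_div]
    refine integral_congr_ae (ae_of_all _ fun t => ?_)
    beta_reduce
    ring
  have hi : ∀ x, 0 < x → Integrable (fun t => kf s x t / Sf s x * h t) ν := by
    intro x hx
    have := (D.kI x hx).div_const (Sf s x)
    refine this.congr (ae_of_all _ fun t => ?_)
    beta_reduce
    ring
  beta_reduce
  rw [e, e]
  refine integral_mono_ae (hi r' hr') (hi r hr) ?_
  filter_upwards [D.ae] with t ht
  have h1 := D.ka t ht hr hr' hrr
  have h3 := (D.hb t ht.le).1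
  exact mul_le_mul_of_nonneg_right h1 (by linarith)

/-- the derivative -/
noncomputable def h1 (s : ℝ → ℝ) (ν : Measure ℝ) (h : ℝ → ℝ) (r : ℝ) : ℝ :=
  if 0 < r then 2 * A s ν h r / (4 * π * s r ^ 2) else 0

theorem h1_nn (D : Hx s ν h C) (r : ℝ) : 0 ≤ h1 s ν h r := by
  unfold h1
  split_ifs with hr
  · have h2 := (D.A_bd r hr).1
    have h3 := D.sp r hr
    positivity
  · exact le_rfl

theorem cont_h1 (D : Hx s ν h C) : ContinuousOn (h1 s ν h) (Ioi 0) := by
  have hA : ContinuousOn (A s ν h) (Ioi 0) :=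
    fun r hr => (D.ader r hr).continuousAt.continuousWithinAt
  have h2 : ContinuousOn (fun r => 2 * A s ν h r / (4 * π * s r ^ 2)) (Ioi 0) := by
    refine (continuousOn_const.mul hA).div
      (continuousOn_const.mul ((D.sc.mono Ioi_subset_Ici_self).pow 2)) ?_
    intro r hr
    have := D.sp r hr
    positivity
  refine h2.congr fun r hr => ?_
  simp only [h1]
  rw [if_pos (by exact hr)]

theorem h1_le (D : Hx s ν h C) : ∃ K, 0 ≤ K ∧ ∀ r, 0 < r → r ≤ 1 → h1 s ν h r ≤ K * r := by
  obtain ⟨C', hC'⟩ := D.ab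
  have hJ : 0 ≤ ∫ t, Jf s t * h t ∂ν := by
    refine integral_nonneg_of_ae ?_
    filter_upwards [D.ae] with t ht
    have h1 := D.J0 t ht
    have h3 := (D.hb t ht.le).1
    change 0 ≤ Jf s t * h t
    positivity
  have hM := D.M0
  refine ⟨(∫ t, Jf s t * h t ∂ν) / Mf s * |C'|, by positivity, fun r hr hr1 => ?_⟩
  have h2 := hC' r ⟨hr, hr1⟩
  have h3 := (D.A_bd r hr).2
  have h4 := D.sp r hr
  unfold h1
  rw [if_pos hr]
  calc 2 * A s ν h r / (4 * π * s r ^ 2)
      ≤ 2 * (Sf s r / Mf s * ∫ t, Jf s t * h t ∂ν) / (4 * π * s r ^ 2) := by gcongr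
    _ = (∫ t, Jf s t * h t ∂ν) / Mf s * (2 * Sf s r / (4 * π * s r ^ 2)) := by ring
    _ ≤ (∫ t, Jf s t * h t ∂ν) / Mf s * (C' * r) := by gcongr
    _ ≤ (∫ t, Jf s t * h t ∂ν) / Mf s * (|C'| * r) := by
        gcongr
        exact le_abs_self _
    _ = _ := by ring

theorem cont_h1' (D : Hx s ν h C) : ContinuousOn (h1 s ν h) (Ici 0) := by
  intro r hr
  rcases (show 0 ≤ r from hr).eq_or_lt with rfl | hr'
  · obtain ⟨K, hK0, hK⟩ := D.h1_le
    have e0 : h1 s ν h 0 = 0 := by simp [h1]
    unfold ContinuousWithinAt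
    rw [e0]
    refine squeeze_zero' (g := fun r : ℝ => K * |r|) ?_ ?_ ?_
    · exact Eventually.of_forall fun r => D.h1_nn r
    · have : Iio (1 : ℝ) ∈ 𝓝[Ici 0] (0 : ℝ) := mem_nhdsWithin_of_mem_nhds (Iio_mem_nhds one_pos)
      filter_upwards [this, self_mem_nhdsWithin] with x hx1 hx0
      rcases (show 0 ≤ x from hx0).eq_or_lt with rfl | hx
      · rw [e0]; simp
      · rw [abs_of_pos hx]
        exact hK x hx (le_of_lt hx1)
    · have : Tendsto (fun r : ℝ => K * |r|) (𝓝 0) (𝓝 (K * |0|)) :=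
        (continuous_const.mul continuous_abs).tendsto 0
      rw [abs_zero, mul_zero] at this
      exact this.mono_left nhdsWithin_le_nhds
  · exact ((D.cont_h1 r hr').continuousAt (Ioi_mem_nhds hr')).continuousWithinAt

theorem fix' (D : Hx s ν h C) (r : ℝ) (hr : 0 < r) :
    h r = 1 + ∫ σ in (0 : ℝ)..r, h1 s ν h σ := by
  rw [D.fix r hr]
  congr 1
  rw [intervalIntegral.integral_of_le hr.le, intervalIntegral.integral_of_le hr.le]
  refine setIntegral_congr_fun measurableSet_Ioc fun σ hσ => ?_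
  simp only [h1]
  rw [if_pos (by exact hσ.1)]
  unfold A
  ring

theorem der (D : Hx s ν h C) (r : ℝ) (hr : 0 < r) : HasDerivAt h (h1 s ν h r) r := by
  have hi : IntervalIntegrable (h1 s ν h) volume 0 r := by
    refine ContinuousOn.intervalIntegrable ?_
    rw [uIcc_of_le hr.le]
    exact D.cont_h1'.mono Icc_subset_Ici_self
  have hca : ContinuousAt (h1 s ν h) r := (D.cont_h1 r hr).continuousAt (Ioi_mem_nhds hr)
  have hsm : StronglyMeasurableAtFilter (h1 s ν h) (𝓝 r) volume := by
    refine ContinuousOn.stronglyMeasurableAtFilter isOpen_Ioi D.cont_h1 r hr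
  have h2 := (intervalIntegral.integral_hasDerivAt_right hi hsm hca).const_add 1
  refine h2.congr_of_eventuallyEq ?_
  filter_upwards [lt_mem_nhds hr] with x hx
  exact D.fix' x hx

theorem conth (D : Hx s ν h C) : ContinuousOn h (Ici 0) := by
  intro r hr
  rcases (show 0 ≤ r from hr).eq_or_lt with rfl | hr'
  · unfold ContinuousWithinAt
    rw [D.h0]
    have h2 : Tendsto (fun r => 1 + C * af s r) (𝓝[Ici 0] 0) (𝓝 1) := by
      have := (D.ac 0 self_mem_Ici).tendsto
      have h3 := (this.const_mul C).const_add 1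
      have h4 : af s 0 = 0 := by unfold af; simp
      rw [h4] at h3
      simpa using h3
    refine tendsto_of_tendsto_of_tendsto_of_le_of_le' tendsto_const_nhds h2 ?_ ?_
    · filter_upwards [self_mem_nhdsWithin] with x hx
      exact (D.hb x hx).1
    · filter_upwards [self_mem_nhdsWithin] with x hx
      exact (D.hb x hx).2
  · exact (D.der r hr').continuousAt.continuousWithinAt

theorem mono (D : Hx s ν h C) : MonotoneOn h (Ici 0) := by
  refine monotoneOn_of_deriv_nonneg (convex_Ici 0) D.conth ?_ ?_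
  · intro x hx
    rw [interior_Ici] at hx
    exact (D.der x hx).differentiableAt.differentiableWithinAt
  · intro x hx
    rw [interior_Ici] at hx
    rw [(D.der x hx).deriv]
    exact D.h1_nn x

theorem hsol (D : Hx s ν h C) : HSol s ν h (h1 s ν h) (A s ν h) (eta s ν h) where
  h0 := D.h0
  cont := D.conth
  mono := D.mono
  der := D.der
  cont1 := D.cont_h1'
  h10 := by simp [h1]
  eq1 := fun r hr => by
    unfold h1
    rw [if_pos hr]
  intJ := D.Ji
  Adef := fun r _ => rfl
  Ann := fun r hr => (D.A_bd r hr).1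
  Aanti := D.aanti
  Ader := D.ader
  etadef := fun r _ => rfl
  etacont := D.etac
  P1 := fun r hr => (D.lamI r hr).2
  P2 := D.p2

end Hx

theorem hex (hja : T_ja) (hkf : T_kf) (hhit : T_hit) : T_hex := by
  intro s s1 hE ν θ hfin hmass h0 hinv hθ haJ
  haveI := hfin
  have hF := Pool.Agent.H99.HM.Main.facts 0 0 s s1 hE
  obtain ⟨j1, j2, j3, j4, j5, j6, j7, j8⟩ := hja s s1 hE
  obtain ⟨k1, k2, k3, k4⟩ := hkf s s1 hE
  have hae : ∀ᵐ t ∂ν, 0 < t := by
    rw [ae_iff]
    have : {a : ℝ | ¬ 0 < a} = Iic 0 := by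
      ext a
      simp
    rw [this]
    exact h0
  have hJc : ContinuousOn (Jf s) (Ioi 0) := fun t ht => (j2 t ht).continuousAt.continuousWithinAt
  obtain ⟨k, C, c0, q1, q2, q3, q4, q5⟩ := hhit s s1 hE ν θ hfin hmass h0 hinv hθ haJ
  have D : Hx s ν k C :=
    { sc := hF.contS, sp := hE.pos, M0 := hF.mpos, S0 := hF.Spos, Sc := hF.Scont, kn := k1,
      ka := k2, kd := k3, kc := k4, J0 := fun t ht => (j3 t ht).1, Jc := hJc, JL := j8, a0 := j6,
      ac := j5, ab := j7, fin := hfin, inv := hinv, ae := hae, C0 := c0, h0 := q1, hm := q2,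
      hb := q3, Ji := q4, fix := q5 }
  exact ⟨k, _, _, _, D.hsol⟩

end Pool.Agent.H66.HN
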