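import Pool.Agent.H99.HN.Targets
import Pool.Agent.H99.HM.Main

/-!
# (HIT) monotone iteration for the multiplier
-/

set_option autoImplicit false

namespace Pool.Agent.H66.HN

open Pool.Agent.H99.HM Pool.Agent.H99.HN
open MeasureTheory Set Filter Topology Real
open scoped ContDiff ENNReal

/-- the kernel as an extended nonnegative function on the quadrant -/
noncomputable def ka (s : ℝ → ℝ) (p : ℝ × ℝ) : ℝ≥0∞ :=
  (Ioi (0 : ℝ) ×ˢ Ioi (0 : ℝ)).indicator (fun p => ENNReal.ofReal (kf s p.1 p.2)) p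

/-- the weight `2/S'` -/
noncomputable def wa (s : ℝ → ℝ) (σ : ℝ) : ℝ≥0∞ :=
  (Ioi (0 : ℝ)).indicator (fun σ => ENNReal.ofReal (2 / (4 * π * s σ ^ 2))) σ

theorem ka_meas (s : ℝ → ℝ)
    (hc : ContinuousOn (fun p : ℝ × ℝ => kf s p.1 p.2) (Ioi 0 ×ˢ Ioi 0)) :
    Measurable (ka s) := by
  have hm : MeasurableSet (Ioi (0 : ℝ) ×ˢ Ioi (0 : ℝ)) := measurableSet_Ioi.prod measurableSet_Ioi
  have h1 : ContinuousOn (fun p : ℝ × ℝ => ENNReal.ofReal (kf s p.1 p.2)) (Ioi 0 ×ˢ Ioi 0) :=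
    ENNReal.continuous_ofReal.comp_continuousOn hc
  have h2 := h1.measurable_piecewise (continuousOn_const (c := (0 : ℝ≥0∞))) hm
  have e : ka s = (Ioi (0 : ℝ) ×ˢ Ioi (0 : ℝ)).piecewise
      (fun p : ℝ × ℝ => ENNReal.ofReal (kf s p.1 p.2)) (fun _ => 0) := by
    funext p
    simp only [ka, Set.indicator, Set.piecewise]
  rw [e]
  exact h2

theorem wa_meas (s : ℝ → ℝ) (hc : ContinuousOn s (Ici 0)) (hp : ∀ t, 0 < t → 0 < s t) :
    Measurable (wa s) := by
  have h1 : ContinuousOn (fun σ : ℝ => ENNReal.ofReal (2 / (4 * π * s σ ^ 2))) (Ioi 0) := by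
    refine ENNReal.continuous_ofReal.comp_continuousOn ?_
    have hs : ContinuousOn s (Ioi 0) := hc.mono Ioi_subset_Ici_self
    refine continuousOn_const.div (continuousOn_const.mul (hs.pow 2)) ?_
    intro t ht
    have := hp t ht
    positivity
  have h2 := h1.measurable_piecewise (continuousOn_const (c := (0 : ℝ≥0∞))) measurableSet_Ioi
  have e : wa s = (Ioi (0 : ℝ)).piecewise
      (fun σ : ℝ => ENNReal.ofReal (2 / (4 * π * s σ ^ 2))) (fun _ => 0) := by
    funext p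
    simp only [wa, Set.indicator, Set.piecewise]
  rw [e]
  exact h2

/-- the iteration step -/
noncomputable def stp (s : ℝ → ℝ) (ν : Measure ℝ) (g : ℝ → ℝ≥0∞) (r : ℝ) : ℝ≥0∞ :=
  1 + ∫⁻ σ in Ioc 0 r, wa s σ * ∫⁻ t, ka s (σ, t) * g t ∂ν

/-- the iterates -/
noncomputable def itr (s : ℝ → ℝ) (ν : Measure ℝ) : ℕ → ℝ → ℝ≥0∞
  | 0 => fun _ => 1
  | n + 1 => stp s ν (itr s ν n)

theorem stp_mono_r (s : ℝ → ℝ) (ν : Measure ℝ) (g : ℝ → ℝ≥0∞) : Monotone (stp s ν g) := by
  intro r r' h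
  unfold stp
  gcongr

theorem stp_mono (s : ℝ → ℝ) (ν : Measure ℝ) {g g' : ℝ → ℝ≥0∞} (h : g ≤ g') :
    stp s ν g ≤ stp s ν g' := by
  intro r
  unfold stp
  gcongr with σ t
  exact h _

theorem itr_meas (s : ℝ → ℝ) (ν : Measure ℝ) (n : ℕ) : Measurable (itr s ν n) := by
  cases n with
  | zero => exact measurable_const
  | succ n => exact (stp_mono_r s ν _).measurable

theorem itr_mono (s : ℝ → ℝ) (ν : Measure ℝ) : Monotone (itr s ν) := by
  refine monotone_nat_of_le_succ fun n => ?_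
  induction n with
  | zero =>
    intro r
    change (1 : ℝ≥0∞) ≤ stp s ν _ r
    unfold stp
    exact le_self_add
  | succ n ih => exact stp_mono s ν ih

theorem itr_lim (s : ℝ → ℝ) (ν : Measure ℝ) (hk : Measurable (ka s)) (hw : Measurable (wa s))
    [SFinite ν] :
    (fun r => ⨆ n, itr s ν n r) = stp s ν (fun r => ⨆ n, itr s ν n r) := by
  funext r
  have h1 : ∀ σ : ℝ, ∫⁻ t, ka s (σ, t) * (⨆ n, itr s ν n t) ∂ν =
      ⨆ n, ∫⁻ t, ka s (σ, t) * itr s ν n t ∂ν := by
    intro σ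
    simp_rw [ENNReal.mul_iSup]
    refine lintegral_iSup (fun n => ?_) ?_
    · exact (hk.comp (measurable_const.prodMk measurable_id)).mul (itr_meas s ν n)
    · intro n m h t
      exact mul_le_mul_right (itr_mono s ν h t) _
  have h2 : ∫⁻ σ in Ioc 0 r, wa s σ * ∫⁻ t, ka s (σ, t) * (⨆ n, itr s ν n t) ∂ν =
      ⨆ n, ∫⁻ σ in Ioc 0 r, wa s σ * ∫⁻ t, ka s (σ, t) * itr s ν n t ∂ν := by
    simp_rw [h1, ENNReal.mul_iSup]
    refine lintegral_iSup (fun n => ?_) ?_
    · refine hw.mul ?_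
      refine Measurable.lintegral_prod_right' (f := fun p : ℝ × ℝ => ka s p * itr s ν n p.2) ?_
      exact hk.mul ((itr_meas s ν n).comp measurable_snd)
    · intro n m h σ
      refine mul_le_mul_right ?_ _
      refine lintegral_mono fun t => ?_
      exact mul_le_mul_right (itr_mono s ν h t) _
  have h3 : (⨆ n, itr s ν n r) = ⨆ n, itr s ν (n + 1) r := by
    refine le_antisymm (iSup_le fun n => ?_) (iSup_le fun n => le_iSup (fun n => itr s ν n r) _)
    exact (itr_mono s ν (Nat.le_succ n) r).trans (le_iSup (fun n => itr s ν (n + 1) r) n)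
  rw [h3]
  unfold stp
  rw [h2, ENNReal.add_iSup]
  rfl

/-- basic data of the module -/
structure Dat (s : ℝ → ℝ) (ν : Measure ℝ) (θ C : ℝ) : Prop where
  sc : ContinuousOn s (Ici 0)
  sp : ∀ t, 0 < t → 0 < s t
  M0 : 0 < Mf s
  S0 : ∀ t, 0 < t → 0 < Sf s t
  kn : ∀ r t, 0 < r → 0 < t → 0 ≤ kf s r t ∧ kf s r t ≤ Sf s r * Jf s t / Mf s
  kc : ContinuousOn (fun p : ℝ × ℝ => kf s p.1 p.2) (Ioi 0 ×ˢ Ioi 0)
  J0 : ∀ t, 0 < t → 0 < Jf s t
  Ji : Integrable (Jf s) ν
  a0 : ∀ t, 0 < t → 0 < af s t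
  aJ : ∀ t, 0 < t → af s t * Jf s t ≤ θ
  t0 : 0 ≤ θ
  t1 : θ < 1
  fin : IsFiniteMeasure ν
  mass : (ν univ).toReal = Mf s
  ae : ∀ᵐ t ∂ν, 0 < t
  hC : C = (∫ t, Jf s t ∂ν) / Mf s / (1 - θ)

theorem Dat.C0 {s : ℝ → ℝ} {ν : Measure ℝ} {θ C : ℝ} (h : Dat s ν θ C) : 0 ≤ C := by
  rw [h.hC]
  have h1 : 0 ≤ ∫ t, Jf s t ∂ν := integral_nonneg_of_ae (h.ae.mono fun t ht => (h.J0 t ht).le)
  have := h.M0
  have := h.t1
  exact div_nonneg (div_nonneg h1 h.M0.le) (by linarith)

/-- the inner integral -/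
theorem inner_le {s : ℝ → ℝ} {ν : Measure ℝ} {θ C : ℝ} (h : Dat s ν θ C) (g : ℝ → ℝ≥0∞)
    (hg : ∀ t, 0 < t → g t ≤ ENNReal.ofReal (1 + C * af s t)) (σ : ℝ) (hσ : 0 < σ) :
    ∫⁻ t, ka s (σ, t) * g t ∂ν ≤ ENNReal.ofReal (Sf s σ * C) := by
  haveI := h.fin
  have hC := h.C0
  have hM := h.M0
  have hS := h.S0 σ hσ
  have h1 : ∀ᵐ t ∂ν, ka s (σ, t) * g t ≤
      ENNReal.ofReal (Sf s σ / Mf s * (Jf s t + C * θ)) := by
    filter_upwards [h.ae] with t ht
    have e : ka s (σ, t) = ENNReal.ofReal (kf s σ t) := by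
      unfold ka
      rw [Set.indicator_of_mem]
      exact ⟨hσ, ht⟩
    rw [e]
    refine (mul_le_mul_right (hg t ht) _).trans ?_
    rw [← ENNReal.ofReal_mul (h.kn σ t hσ ht).1]
    refine ENNReal.ofReal_le_ofReal ?_
    have h2 := (h.kn σ t hσ ht).2
    have h3 := h.aJ t ht
    have h4 := h.a0 t ht
    have h5 := h.J0 t ht
    have h6 : 0 ≤ 1 + C * af s t := by positivity
    calc kf s σ t * (1 + C * af s t) ≤ Sf s σ * Jf s t / Mf s * (1 + C * af s t) :=
          mul_le_mul_of_nonneg_right h2 h6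
      _ = Sf s σ / Mf s * (Jf s t + C * (af s t * Jf s t)) := by ring
      _ ≤ Sf s σ / Mf s * (Jf s t + C * θ) := by
          refine mul_le_mul_of_nonneg_left ?_ (by positivity)
          have := mul_le_mul_of_nonneg_left h3 hC
          linarith
  refine (lintegral_mono_ae h1).trans ?_
  have hi : Integrable (fun t => Sf s σ / Mf s * (Jf s t + C * θ)) ν :=
    (h.Ji.add (integrable_const _)).const_mul _
  rw [← ofReal_integral_eq_lintegral_ofReal hi]
  · refine ENNReal.ofReal_le_ofReal (le_of_eq ?_)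
    rw [integral_const_mul, integral_add h.Ji (integrable_const _), integral_const,
      Measure.real, h.mass, smul_eq_mul]
    have h7 : 1 - θ ≠ 0 := by
      have := h.t1
      intro h0
      linarith
    have h8 : ∫ t, Jf s t ∂ν = C * Mf s * (1 - θ) := by
      rw [h.hC]
      field_simp
    rw [h8]
    field_simp
    ring
  · filter_upwards [h.ae] with t ht
    have h5 := h.J0 t ht
    have := h.t0
    positivity

/-- the integral of the weight -/
theorem w_int {s : ℝ → ℝ} {ν : Measure ℝ} {θ C : ℝ} (h : Dat s ν θ C) (r : ℝ) (hr : 0 < r) :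
    IntegrableOn (fun t => 2 * Sf s t / (4 * π * s t ^ 2)) (Ioc 0 r) := by
  by_contra h1
  have h2 := h.a0 r hr
  have h3 : af s r = 0 := by
    unfold af
    rw [intervalIntegral.integral_of_le hr.le]
    exact integral_undef h1
  linarith

theorem w_lint {s : ℝ → ℝ} {ν : Measure ℝ} {θ C : ℝ} (h : Dat s ν θ C) (r : ℝ) (hr : 0 < r) :
    ∫⁻ σ in Ioc 0 r, wa s σ * ENNReal.ofReal (Sf s σ * C) = ENNReal.ofReal (C * af s r) := by
  have hC := h.C0
  have h1 : ∫⁻ σ in Ioc 0 r, wa s σ * ENNReal.ofReal (Sf s σ * C) =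
      ∫⁻ σ in Ioc 0 r, ENNReal.ofReal (C * (2 * Sf s σ / (4 * π * s σ ^ 2))) := by
    refine setLIntegral_congr_fun measurableSet_Ioc fun σ hσ => ?_
    have h2 := h.sp σ hσ.1
    have h3 := h.S0 σ hσ.1
    have e : wa s σ = ENNReal.ofReal (2 / (4 * π * s σ ^ 2)) := by
      unfold wa
      rw [Set.indicator_of_mem]
      exact hσ.1
    beta_reduce
    rw [e, ← ENNReal.ofReal_mul (by positivity)]
    congr 1
    ring
  rw [h1, ← ofReal_integral_eq_lintegral_ofReal ((w_int h r hr).const_mul C)]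
  · rw [integral_const_mul, af, intervalIntegral.integral_of_le hr.le]
  · refine (ae_restrict_iff' measurableSet_Ioc).2 (ae_of_all _ fun σ hσ => ?_)
    have h2 := h.sp σ hσ.1
    have h3 := h.S0 σ hσ.1
    positivity

theorem stp_le {s : ℝ → ℝ} {ν : Measure ℝ} {θ C : ℝ} (h : Dat s ν θ C) (g : ℝ → ℝ≥0∞)
    (hg : ∀ t, 0 < t → g t ≤ ENNReal.ofReal (1 + C * af s t)) (r : ℝ) (hr : 0 < r) :
    stp s ν g r ≤ ENNReal.ofReal (1 + C * af s r) := by
  have hC := h.C0
  have ha := h.a0 r hr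
  rw [ENNReal.ofReal_add zero_le_one (by positivity), ENNReal.ofReal_one]
  unfold stp
  refine add_le_add_right ?_ _
  rw [← w_lint h r hr]
  refine setLIntegral_mono_ae' measurableSet_Ioc (ae_of_all _ fun σ hσ => ?_)
  exact mul_le_mul_right (inner_le h g hg σ hσ.1) _

theorem itr_le {s : ℝ → ℝ} {ν : Measure ℝ} {θ C : ℝ} (h : Dat s ν θ C) (n : ℕ) (r : ℝ)
    (hr : 0 < r) : itr s ν n r ≤ ENNReal.ofReal (1 + C * af s r) := by
  induction n generalizing r with
  | zero =>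
    have hC := h.C0
    have ha := h.a0 r hr
    change (1 : ℝ≥0∞) ≤ _
    rw [← ENNReal.ofReal_one]
    refine ENNReal.ofReal_le_ofReal ?_
    have : 0 ≤ C * af s r := by positivity
    linarith
  | succ n ih => exact stp_le h _ ih r hr

/-- the solution -/
theorem sol {s : ℝ → ℝ} {ν : Measure ℝ} {θ C : ℝ} (h : Dat s ν θ C) :
    ∃ (k : ℝ → ℝ), k 0 = 1 ∧
    Measurable k ∧ (∀ r, 0 ≤ r → 1 ≤ k r ∧ k r ≤ 1 + C * af s r) ∧
    Integrable (fun t => Jf s t * k t) ν ∧
    ∀ r, 0 < r → k r = 1 + ∫ σ in (0 : ℝ)..r, 2 / (4 * π * s σ ^ 2) * ∫ t, kf s σ t * k t ∂ν := by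
  haveI := h.fin
  have hk := ka_meas s h.kc
  have hw := wa_meas s h.sc h.sp
  set G : ℝ → ℝ≥0∞ := fun r => ⨆ n, itr s ν n r with hG
  have hGm : Measurable G := Measurable.iSup fun n => itr_meas s ν n
  have hfix : G = stp s ν G := itr_lim s ν hk hw
  have hGle : ∀ r, 0 < r → G r ≤ ENNReal.ofReal (1 + C * af s r) :=
    fun r hr => iSup_le fun n => itr_le h n r hr
  have hG1 : ∀ r, 1 ≤ G r := fun r => le_iSup (fun n => itr s ν n r) 0
  have hG0 : ∀ r, r ≤ 0 → G r = 1 := by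
    intro r hr
    rw [hfix]
    unfold stp
    rw [Ioc_eq_empty (by linarith)]
    simp
  have hGt : ∀ r, G r ≠ ⊤ := by
    intro r
    rcases le_or_gt r 0 with hr | hr
    · rw [hG0 r hr]; simp
    · exact ne_top_of_le_ne_top ENNReal.ofReal_ne_top (hGle r hr)
  set k : ℝ → ℝ := fun r => (G r).toReal with hkdef
  have hkm : Measurable k := hGm.ennreal_toReal
  have hkG : ∀ r, ENNReal.ofReal (k r) = G r := fun r => ENNReal.ofReal_toReal (hGt r)
  have hk1 : ∀ r, 1 ≤ k r := by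
    intro r
    have := ENNReal.toReal_mono (hGt r) (hG1 r)
    simpa using this
  have hkle : ∀ r, 0 < r → k r ≤ 1 + C * af s r := by
    intro r hr
    have hC := h.C0
    have ha := h.a0 r hr
    exact ENNReal.toReal_le_of_le_ofReal (by positivity) (hGle r hr)
  have hk0 : k 0 = 1 := by
    simp only [hkdef, hG0 0 le_rfl, ENNReal.toReal_one]
  refine ⟨k, hk0, hkm, ?_, ?_, ?_⟩
  · intro r hr
    refine ⟨hk1 r, ?_⟩
    rcases hr.eq_or_lt with rfl | hr
    · rw [hk0]
      have : af s 0 = 0 := by unfold af; simp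
      rw [this]
      simp
    · exact hkle r hr
  · refine Integrable.mono' (h.Ji.add (integrable_const (C * θ)))
      (h.Ji.1.mul hkm.aestronglyMeasurable) ?_
    filter_upwards [h.ae] with t ht
    have hJ := h.J0 t ht
    have h3 := h.aJ t ht
    have hC := h.C0
    have h4 := hk1 t
    rw [Real.norm_of_nonneg (by positivity)]
    have h5 : Jf s t * k t ≤ Jf s t * (1 + C * af s t) :=
      mul_le_mul_of_nonneg_left (hkle t ht) hJ.le
    have h6 := mul_le_mul_of_nonneg_left h3 hC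
    simp only [Pi.add_apply]
    nlinarith
  · intro r hr
    -- inner integral
    have hin : ∀ σ, 0 < σ → ∫⁻ t, ka s (σ, t) * G t ∂ν ≠ ⊤ ∧
        ∫ t, kf s σ t * k t ∂ν = (∫⁻ t, ka s (σ, t) * G t ∂ν).toReal := by
      intro σ hσ
      refine ⟨ne_top_of_le_ne_top ENNReal.ofReal_ne_top (inner_le h G hGle σ hσ), ?_⟩
      rw [integral_eq_lintegral_of_nonneg_ae]
      · congr 1
        refine lintegral_congr_ae ?_
        filter_upwards [h.ae] with t ht
        have e : ka s (σ, t) = ENNReal.ofReal (kf s σ t) := by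
          unfold ka
          rw [Set.indicator_of_mem]
          exact ⟨hσ, ht⟩
        rw [e, ← hkG t, ← ENNReal.ofReal_mul (h.kn σ t hσ ht).1]
      · filter_upwards [h.ae] with t ht
        have h1 := (h.kn σ t hσ ht).1
        have h2 := hk1 t
        change 0 ≤ kf s σ t * k t
        positivity
      · refine AEStronglyMeasurable.mul ?_ hkm.aestronglyMeasurable
        have hm : Measurable (fun t => (ka s (σ, t)).toReal) :=
          (hk.comp (measurable_const.prodMk measurable_id)).ennreal_toReal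
        refine hm.aestronglyMeasurable.congr ?_
        filter_upwards [h.ae] with t ht
        have e : ka s (σ, t) = ENNReal.ofReal (kf s σ t) := by
          unfold ka
          rw [Set.indicator_of_mem]
          exact ⟨hσ, ht⟩
        rw [e, ENNReal.toReal_ofReal (h.kn σ t hσ ht).1]
    have hpm : Measurable (fun σ => ∫⁻ t, ka s (σ, t) * G t ∂ν) := by
      refine Measurable.lintegral_prod_right' (f := fun p : ℝ × ℝ => ka s p * G p.2) ?_
      exact hk.mul (hGm.comp measurable_snd)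
    have hout : ∫ σ in (0 : ℝ)..r, 2 / (4 * π * s σ ^ 2) * ∫ t, kf s σ t * k t ∂ν =
        (∫⁻ σ in Ioc 0 r, wa s σ * ∫⁻ t, ka s (σ, t) * G t ∂ν).toReal := by
      rw [intervalIntegral.integral_of_le hr.le]
      have e1 : ∫ σ in Ioc 0 r, 2 / (4 * π * s σ ^ 2) * ∫ t, kf s σ t * k t ∂ν =
          ∫ σ in Ioc 0 r, (wa s σ * ∫⁻ t, ka s (σ, t) * G t ∂ν).toReal := by
        refine setIntegral_congr_fun measurableSet_Ioc fun σ hσ => ?_
        have e : wa s σ = ENNReal.ofReal (2 / (4 * π * s σ ^ 2)) := by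
          unfold wa
          rw [Set.indicator_of_mem]
          exact hσ.1
        have hs := h.sp σ hσ.1
        beta_reduce
        rw [(hin σ hσ.1).2, ENNReal.toReal_mul, e, ENNReal.toReal_ofReal (by positivity)]
      rw [e1, integral_toReal]
      · exact (hw.mul hpm).aemeasurable
      · refine (ae_restrict_iff' measurableSet_Ioc).2 (ae_of_all _ fun σ hσ => ?_)
        refine ENNReal.mul_lt_top ?_ (lt_top_iff_ne_top.2 (hin σ hσ.1).1)
        unfold wa
        rw [Set.indicator_of_mem (by exact hσ.1)]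
        exact ENNReal.ofReal_lt_top
    rw [hout]
    have hr' : G r = stp s ν G r := congrFun hfix r
    have hfin : ∫⁻ σ in Ioc 0 r, wa s σ * ∫⁻ t, ka s (σ, t) * G t ∂ν ≠ ⊤ := by
      intro h1
      refine hGt r ?_
      rw [hr']
      unfold stp
      rw [h1]
      simp
    change (G r).toReal = _
    rw [hr']
    unfold stp
    rw [ENNReal.toReal_add (by simp) hfin]
    simp

theorem hit (hja : T_ja) (hkf : T_kf) : T_hit := by
  intro s s1 hE ν θ hfin hmass h0 hinv hθ haJ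
  haveI := hfin
  have hF := Pool.Agent.H99.HM.Main.facts 0 0 s s1 hE
  obtain ⟨j1, j2, j3, j4, j5, j6, j7, j8⟩ := hja s s1 hE
  obtain ⟨k1, k2, k3, k4⟩ := hkf s s1 hE
  have hae : ∀ᵐ t ∂ν, 0 < t := by
    rw [ae_iff]
    have : {a : ℝ | ¬ 0 < a} = Iic 0 := by
      ext a
      simp
    rw [this]
    exact h0
  have hres : ν.restrict (Ioi 0) = ν := Measure.restrict_eq_self_of_ae_mem hae
  have hJc : ContinuousOn (Jf s) (Ioi 0) := fun t ht => (j2 t ht).continuousAt.continuousWithinAt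
  have hJm : AEStronglyMeasurable (Jf s) ν := by
    have := hJc.aestronglyMeasurable (μ := ν) measurableSet_Ioi
    rwa [hres] at this
  have hJi : Integrable (Jf s) ν := by
    refine Integrable.mono' (hinv.const_mul (Mf s)) hJm ?_
    filter_upwards [hae] with t ht
    obtain ⟨h1, h2⟩ := j3 t ht
    rw [Real.norm_of_nonneg h1.le]
    refine h2.trans ?_
    have h3 := hF.Spos t ht
    rw [mul_one_div]
    gcongr
    linarith
  have hθ0 : 0 ≤ θ := (mul_pos (j6 1 one_pos) (j3 1 one_pos).1).le.trans (haJ 1 one_pos)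
  have hD : Dat s ν θ ((∫ t, Jf s t ∂ν) / Mf s / (1 - θ)) :=
    { sc := hF.contS, sp := hE.pos, M0 := hF.mpos, S0 := hF.Spos, kn := k1, kc := k4,
      J0 := fun t ht => (j3 t ht).1, Ji := hJi, a0 := j6, aJ := haJ, t0 := hθ0, t1 := hθ,
      fin := hfin, mass := hmass, ae := hae, hC := rfl }
  obtain ⟨k, q1, q2, q3, q4, q5⟩ := sol hD
  exact ⟨k, _, hD.C0, q1, q2, q3, q4, q5⟩

end Pool.Agent.H66.HN
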