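import Pool.Agent.H99.HN.Targets

/-!
# (POIN) Poincaré inequality on spheres, integrated form
-/

set_option autoImplicit false

namespace Pool.Agent.H66.HN

open Pool.Agent.H99.HM Pool.Agent.H99.HN
open MeasureTheory Set Filter Topology Real
open scoped ContDiff

/-- measure in the `z` variable -/
noncomputable abbrev mz : Measure ℝ := volume.restrict (Ioo (-1 : ℝ) 1)

/-- measure in the `φ` variable -/
noncomputable abbrev mp : Measure ℝ := volume.restrict (Ioc (-π) π)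

theorem izE (f : ℝ → ℝ) : ∫ z in (-1 : ℝ)..1, f z = ∫ z, f z ∂mz := by
  rw [intervalIntegral.integral_of_le (by norm_num), integral_Ioc_eq_integral_Ioo]

theorem ipE (f : ℝ → ℝ) : ∫ φ in (-π)..π, f φ = ∫ φ, f φ ∂mp :=
  intervalIntegral.integral_of_le (by linarith [pi_pos])

theorem intW (W : ℝ → ℝ → ℝ) (B : ℝ)
    (hc : ContinuousOn (fun p : ℝ × ℝ => W p.1 p.2) (Ioo (-1) 1 ×ˢ univ))
    (hb : ∀ z ∈ Ioo (-1 : ℝ) 1, ∀ φ ∈ Ioc (-π) π, |W z φ| ≤ B) :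
    Integrable (fun p : ℝ × ℝ => W p.1 p.2) (mz.prod mp) := by
  have hm : MeasurableSet (Ioo (-1 : ℝ) 1 ×ˢ Ioc (-π) π) := measurableSet_Ioo.prod measurableSet_Ioc
  have hr : mz.prod mp = (volume.prod volume).restrict (Ioo (-1 : ℝ) 1 ×ˢ Ioc (-π) π) :=
    Measure.prod_restrict _ _
  refine Integrable.of_bound (C := B) ?_ ?_
  · rw [hr]
    exact (hc.mono (prod_mono le_rfl (subset_univ _))).aestronglyMeasurable hm
  · rw [hr]
    refine (ae_restrict_iff' hm).2 (ae_of_all _ fun p hp => ?_)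
    exact hb p.1 hp.1 p.2 hp.2

theorem swapW (W : ℝ → ℝ → ℝ) (B : ℝ)
    (hc : ContinuousOn (fun p : ℝ × ℝ => W p.1 p.2) (Ioo (-1) 1 ×ˢ univ))
    (hb : ∀ z ∈ Ioo (-1 : ℝ) 1, ∀ φ ∈ Ioc (-π) π, |W z φ| ≤ B) :
    ∫ φ, ∫ z, W z φ ∂mz ∂mp = ∫ z, ∫ φ, W z φ ∂mp ∂mz :=
  (integral_integral_swap (f := W) (intW W B hc hb)).symm

theorem intz (W : ℝ → ℝ → ℝ) (B : ℝ)
    (hc : ContinuousOn (fun p : ℝ × ℝ => W p.1 p.2) (Ioo (-1) 1 ×ˢ univ))
    (hb : ∀ z ∈ Ioo (-1 : ℝ) 1, ∀ φ ∈ Ioc (-π) π, |W z φ| ≤ B) :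
    Integrable (fun z => ∫ φ, W z φ ∂mp) mz := (intW W B hc hb).integral_prod_left

theorem intp (W : ℝ → ℝ → ℝ) (B : ℝ)
    (hc : ContinuousOn (fun p : ℝ × ℝ => W p.1 p.2) (Ioo (-1) 1 ×ˢ univ))
    (hb : ∀ z ∈ Ioo (-1 : ℝ) 1, ∀ φ ∈ Ioc (-π) π, |W z φ| ≤ B) :
    Integrable (fun φ => ∫ z, W z φ ∂mz) mp := (intW W B hc hb).integral_prod_right

theorem int1 (f : ℝ → ℝ) (B : ℝ) (hc : ContinuousOn f (Ioo (-1) 1))
    (hb : ∀ z ∈ Ioo (-1 : ℝ) 1, |f z| ≤ B) : Integrable f mz := by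
  refine Integrable.of_bound (C := B) (hc.aestronglyMeasurable measurableSet_Ioo) ?_
  exact (ae_restrict_iff' measurableSet_Ioo).2 (ae_of_all _ fun z hz => hb z hz)

/-- hypotheses of the abstract inequality -/
structure Cor (u uz up : ℝ → ℝ → ℝ) (C : ℝ) : Prop where
  c0 : Continuous (fun p : ℝ × ℝ => u p.1 p.2)
  c1 : ContinuousOn (fun p : ℝ × ℝ => uz p.1 p.2) (Ioo (-1) 1 ×ˢ univ)
  c2 : Continuous (fun p : ℝ × ℝ => up p.1 p.2)
  d1 : ∀ z ∈ Ioo (-1 : ℝ) 1, ∀ φ, HasDerivAt (fun z => u z φ) (uz z φ) z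
  d2 : ∀ z φ, HasDerivAt (fun φ => u z φ) (up z φ) φ
  b1 : ∀ z ∈ Ioo (-1 : ℝ) 1, ∀ φ, |uz z φ| * √(1 - z ^ 2) ≤ C
  b2 : ∀ z ∈ Ioo (-1 : ℝ) 1, ∀ φ, |up z φ| ≤ C * √(1 - z ^ 2)
  per : ∀ z, u z (-π) = u z π
  zero : ∫ z, ∫ φ, u z φ ∂mp ∂mz = 0

namespace Cor

variable {u uz up : ℝ → ℝ → ℝ} {C : ℝ}

theorem sq_pos {z : ℝ} (hz : z ∈ Ioo (-1 : ℝ) 1) : 0 < 1 - z ^ 2 := by
  obtain ⟨h1, h2⟩ := hz
  nlinarith

theorem C0 (D : Cor u uz up C) : 0 ≤ C := by
  have h := D.b1 0 ⟨by norm_num, by norm_num⟩ 0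
  exact (mul_nonneg (abs_nonneg _) (Real.sqrt_nonneg _)).trans h

/-- mean over `φ` -/
noncomputable def f0 (u : ℝ → ℝ → ℝ) (z : ℝ) : ℝ := (2 * π)⁻¹ * ∫ φ in (-π)..π, u z φ

theorem f0_cont (D : Cor u uz up C) : Continuous (f0 u) := by
  unfold f0
  exact continuous_const.mul
    (intervalIntegral.continuous_parametric_intervalIntegral_of_continuous' (f := u) D.c0 _ _)

theorem uz_cont (D : Cor u uz up C) (z : ℝ) (hz : z ∈ Ioo (-1 : ℝ) 1) :
    Continuous (fun φ => uz z φ) := by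
  have h5 : Continuous (fun φ : ℝ => (z, φ)) := by fun_prop
  have h6 := D.c1.comp h5.continuousOn (s := univ) (fun φ _ => ⟨hz, mem_univ _⟩)
  exact continuousOn_univ.1 h6

/-- local bound for `uz` -/
theorem uz_loc (D : Cor u uz up C) (z : ℝ) (hz : z ∈ Ioo (-1 : ℝ) 1) :
    ∃ (s : Set ℝ) (K : ℝ), s ∈ 𝓝 z ∧ s ⊆ Ioo (-1) 1 ∧ ∀ x ∈ s, ∀ φ, |uz x φ| ≤ K := by
  obtain ⟨hz1, hz2⟩ := hz
  set b : ℝ := (1 + |z|) / 2 with hb
  have hz' : |z| < 1 := abs_lt.2 ⟨hz1, hz2⟩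
  have hb1 : b < 1 := by rw [hb]; linarith
  have hb2 : |z| < b := by rw [hb]; linarith
  have hb0 : 0 < b := (abs_nonneg z).trans_lt hb2
  have hp : 0 < 1 - b ^ 2 := by nlinarith
  refine ⟨Ioo (-b) b, C / √(1 - b ^ 2), Ioo_mem_nhds ?_ ?_, ?_, ?_⟩
  · have := neg_abs_le z
    linarith
  · exact (le_abs_self z).trans_lt hb2
  · intro x hx
    exact ⟨by linarith [hx.1], by linarith [hx.2]⟩
  · intro x hx φ
    have hx' : x ∈ Ioo (-1 : ℝ) 1 := ⟨by linarith [hx.1], by linarith [hx.2]⟩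
    have h1 := D.b1 x hx' φ
    rw [le_div_iff₀ (Real.sqrt_pos.2 hp)]
    refine (mul_le_mul_of_nonneg_left (Real.sqrt_le_sqrt ?_) (abs_nonneg _)).trans h1
    have : x ^ 2 ≤ b ^ 2 := sq_le_sq' hx.1.le hx.2.le
    linarith

theorem f0_der (D : Cor u uz up C) (z : ℝ) (hz : z ∈ Ioo (-1 : ℝ) 1) :
    HasDerivAt (f0 u) (f0 uz z) z := by
  obtain ⟨s, K, hs, hsub, hK⟩ := D.uz_loc z hz
  have hu : ∀ x, Continuous (fun φ => u x φ) := fun x =>
    D.c0.comp (continuous_const.prodMk continuous_id)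
  have key := intervalIntegral.hasDerivAt_integral_of_dominated_loc_of_deriv_le (μ := volume)
    (a := -π) (b := π) (𝕜 := ℝ) (F := u) (F' := uz) (x₀ := z) (s := s) (bound := fun _ => K) hs
    (Eventually.of_forall fun x => (hu x).aestronglyMeasurable) ((hu z).intervalIntegrable _ _)
    (D.uz_cont z hz).aestronglyMeasurable
    (ae_of_all _ fun t _ x hx => hK x hx t) (continuous_const.intervalIntegrable _ _)
    (ae_of_all _ fun t _ x hx => D.d1 x (hsub hx) t)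
  exact key.2.const_mul _

theorem f1_cont (D : Cor u uz up C) : ContinuousOn (f0 uz) (Ioo (-1) 1) := by
  intro z hz
  refine ContinuousAt.continuousWithinAt ?_
  obtain ⟨s, K, hs, hsub, hK⟩ := D.uz_loc z hz
  unfold f0
  refine continuousAt_const.mul ?_
  refine intervalIntegral.continuousAt_of_dominated_interval (bound := fun _ => K) ?_ ?_
    (continuous_const.intervalIntegrable _ _) ?_
  · filter_upwards [hs] with x hx
    exact (D.uz_cont x (hsub hx)).aestronglyMeasurable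
  · filter_upwards [hs] with x hx
    exact ae_of_all _ fun t _ => hK x hx t
  · refine ae_of_all _ fun t _ => ?_
    have h1 : ContinuousAt (fun p : ℝ × ℝ => uz p.1 p.2) (z, t) := by
      refine D.c1.continuousAt ?_
      exact prod_mem_nhds (Ioo_mem_nhds hz.1 hz.2) univ_mem
    have h2 : ContinuousAt (fun x : ℝ => (x, t)) z := by fun_prop
    exact ContinuousAt.comp (f := fun x : ℝ => (x, t)) h1 h2

theorem f1_bd (D : Cor u uz up C) (z : ℝ) (hz : z ∈ Ioo (-1 : ℝ) 1) :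
    |f0 uz z| * √(1 - z ^ 2) ≤ C := by
  have hp : 0 < √(1 - z ^ 2) := Real.sqrt_pos.2 (sq_pos hz)
  rw [← le_div_iff₀ hp]
  unfold f0
  rw [abs_mul, abs_of_pos (by positivity)]
  have h1 : ‖∫ φ in (-π)..π, uz z φ‖ ≤ C / √(1 - z ^ 2) * |π - -π| := by
    refine intervalIntegral.norm_integral_le_of_norm_le_const fun t _ => ?_
    rw [le_div_iff₀ hp]
    exact D.b1 z hz t
  have h2 : |π - -π| = 2 * π := by
    rw [abs_of_pos (by linarith [pi_pos])]
    ring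
  rw [h2] at h1
  calc (2 * π)⁻¹ * |∫ φ in (-π)..π, uz z φ| ≤ (2 * π)⁻¹ * (C / √(1 - z ^ 2) * (2 * π)) :=
        mul_le_mul_of_nonneg_left h1 (by positivity)
    _ = C / √(1 - z ^ 2) := by field_simp

/-- the remainder is small near the poles -/
theorem g_bd (D : Cor u uz up C) (z : ℝ) (hz : z ∈ Ioo (-1 : ℝ) 1) (φ : ℝ)
    (hφ : φ ∈ Icc (-π) π) : |u z φ - f0 u z| ≤ 2 * π * C * √(1 - z ^ 2) := by
  have hp : 0 < √(1 - z ^ 2) := Real.sqrt_pos.2 (sq_pos hz)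
  have hu : Continuous (fun φ => u z φ) := D.c0.comp (continuous_const.prodMk continuous_id)
  have h1 : ∀ ψ ∈ Icc (-π) π, |u z φ - u z ψ| ≤ 2 * π * C * √(1 - z ^ 2) := by
    intro ψ hψ
    have h2 := (convex_Icc (-π) π).norm_image_sub_le_of_norm_hasDerivWithin_le
      (f := fun φ => u z φ) (f' := fun φ => up z φ) (C := C * √(1 - z ^ 2))
      (fun x _ => (D.d2 z x).hasDerivWithinAt) (fun x _ => D.b2 z hz x) hψ hφ
    have h3 : ‖φ - ψ‖ ≤ 2 * π := by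
      rw [Real.norm_eq_abs, abs_le]
      constructor <;> linarith [hφ.1, hφ.2, hψ.1, hψ.2]
    have h4 : 0 ≤ C * √(1 - z ^ 2) := mul_nonneg D.C0 hp.le
    calc |u z φ - u z ψ| ≤ C * √(1 - z ^ 2) * ‖φ - ψ‖ := h2
      _ ≤ C * √(1 - z ^ 2) * (2 * π) := mul_le_mul_of_nonneg_left h3 h4
      _ = _ := by ring
  have h5 : u z φ - f0 u z = (2 * π)⁻¹ * ∫ ψ in (-π)..π, (u z φ - u z ψ) := by
    rw [intervalIntegral.integral_sub (continuous_const.intervalIntegrable _ _)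
      (hu.intervalIntegrable _ _), intervalIntegral.integral_const]
    unfold f0
    simp only [smul_eq_mul]
    field_simp
    ring
  rw [h5, abs_mul, abs_of_pos (by positivity)]
  have h6 : ‖∫ ψ in (-π)..π, (u z φ - u z ψ)‖ ≤ 2 * π * C * √(1 - z ^ 2) * |π - -π| := by
    refine intervalIntegral.norm_integral_le_of_norm_le_const fun t ht => ?_
    rw [uIoc_of_le (by linarith [pi_pos])] at ht
    exact h1 t ⟨ht.1.le, ht.2⟩
  have h2 : |π - -π| = 2 * π := by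
    rw [abs_of_pos (by linarith [pi_pos])]
    ring
  rw [h2] at h6
  calc (2 * π)⁻¹ * |∫ ψ in (-π)..π, (u z φ - u z ψ)|
      ≤ (2 * π)⁻¹ * (2 * π * C * √(1 - z ^ 2) * (2 * π)) :=
        mul_le_mul_of_nonneg_left h6 (by positivity)
    _ = _ := by field_simp

/-- orthogonality to the mean -/
theorem orth (v : ℝ → ℝ) (hv : Continuous v) :
    ∫ φ, v φ ^ 2 ∂mp = 2 * π * ((2 * π)⁻¹ * ∫ φ in (-π)..π, v φ) ^ 2 +
      ∫ φ, (v φ - (2 * π)⁻¹ * ∫ φ in (-π)..π, v φ) ^ 2 ∂mp := by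
  set m : ℝ := (2 * π)⁻¹ * ∫ φ in (-π)..π, v φ with hm
  have hI : ∫ φ in (-π)..π, v φ = 2 * π * m := by
    rw [hm]
    field_simp
  rw [← ipE, ← ipE]
  have e : ∀ φ, (v φ - m) ^ 2 = v φ ^ 2 - 2 * m * v φ + m ^ 2 := fun φ => by ring
  simp_rw [e]
  have i1 : IntervalIntegrable (fun φ => v φ ^ 2) volume (-π) π :=
    (hv.pow 2).intervalIntegrable _ _
  have i2 : IntervalIntegrable (fun φ => 2 * m * v φ) volume (-π) π :=
    (continuous_const.mul hv).intervalIntegrable _ _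
  have i3 : IntervalIntegrable (fun φ => v φ ^ 2 - 2 * m * v φ) volume (-π) π := i1.sub i2
  rw [intervalIntegral.integral_add i3 (continuous_const.intervalIntegrable _ _),
    intervalIntegral.integral_sub i1 i2, intervalIntegral.integral_const_mul, hI,
    intervalIntegral.integral_const, smul_eq_mul]
  ring

theorem cW0 (D : Cor u uz up C) : ContinuousOn (fun p : ℝ × ℝ => (u p.1 p.2 - f0 u p.1) ^ 2)
    (Ioo (-1) 1 ×ˢ univ) :=
  ((D.c0.sub (D.f0_cont.comp continuous_fst)).pow 2).continuousOn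

theorem cW1 (D : Cor u uz up C) : ContinuousOn
    (fun p : ℝ × ℝ => (1 - p.1 ^ 2) * (uz p.1 p.2 - f0 uz p.1) ^ 2) (Ioo (-1) 1 ×ˢ univ) := by
  have h1 : ContinuousOn (fun p : ℝ × ℝ => f0 uz p.1) (Ioo (-1) 1 ×ˢ univ) :=
    D.f1_cont.comp continuousOn_fst (fun p hp => hp.1)
  have h2 : ContinuousOn (fun p : ℝ × ℝ => 1 - p.1 ^ 2) (Ioo (-1) 1 ×ˢ univ) := by fun_prop
  exact h2.mul ((D.c1.sub h1).pow 2)

theorem cdiv {W : ℝ × ℝ → ℝ} (hW : ContinuousOn W (Ioo (-1 : ℝ) 1 ×ˢ univ)) : ContinuousOn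
    (fun p : ℝ × ℝ => W p / (1 - p.1 ^ 2)) (Ioo (-1) 1 ×ˢ univ) := by
  have h2 : ContinuousOn (fun p : ℝ × ℝ => 1 - p.1 ^ 2) (Ioo (-1) 1 ×ˢ univ) := by fun_prop
  exact hW.div h2 fun p hp => (sq_pos hp.1).ne'

theorem sq_bd {x y c : ℝ} (h : |x| * √y ≤ c) (hy : 0 < y) : y * x ^ 2 ≤ c ^ 2 := by
  have h1 : 0 ≤ |x| * √y := by positivity
  have h2 := pow_le_pow_left₀ h1 h 2
  rw [mul_pow, sq_abs, Real.sq_sqrt hy.le] at h2
  linarith

theorem b_gz (D : Cor u uz up C) (z : ℝ) (hz : z ∈ Ioo (-1 : ℝ) 1) (φ : ℝ) :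
    (1 - z ^ 2) * (uz z φ - f0 uz z) ^ 2 ≤ (2 * C) ^ 2 := by
  refine sq_bd ?_ (sq_pos hz)
  have h1 := D.b1 z hz φ
  have h2 := D.f1_bd z hz
  have h3 : |uz z φ - f0 uz z| ≤ |uz z φ| + |f0 uz z| := abs_sub _ _
  have h4 := mul_le_mul_of_nonneg_right h3 (Real.sqrt_nonneg (1 - z ^ 2))
  linarith

theorem b_g (D : Cor u uz up C) (z : ℝ) (hz : z ∈ Ioo (-1 : ℝ) 1) (φ : ℝ)
    (hφ : φ ∈ Icc (-π) π) : (u z φ - f0 u z) ^ 2 ≤ (2 * π * C) ^ 2 * (1 - z ^ 2) := by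
  have h1 := D.g_bd z hz φ hφ
  have h2 := pow_le_pow_left₀ (abs_nonneg _) h1 2
  rw [sq_abs, mul_pow, Real.sq_sqrt (sq_pos hz).le] at h2
  exact h2

theorem b_gd (D : Cor u uz up C) (z : ℝ) (hz : z ∈ Ioo (-1 : ℝ) 1) (φ : ℝ)
    (hφ : φ ∈ Icc (-π) π) : (u z φ - f0 u z) ^ 2 / (1 - z ^ 2) ≤ (2 * π * C) ^ 2 := by
  rw [div_le_iff₀ (sq_pos hz)]
  exact D.b_g z hz φ hφ

theorem b_up (D : Cor u uz up C) (z : ℝ) (hz : z ∈ Ioo (-1 : ℝ) 1) (φ : ℝ) :
    up z φ ^ 2 / (1 - z ^ 2) ≤ C ^ 2 := by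
  rw [div_le_iff₀ (sq_pos hz)]
  have h2 := pow_le_pow_left₀ (abs_nonneg _) (D.b2 z hz φ) 2
  rw [sq_abs, mul_pow, Real.sq_sqrt (sq_pos hz).le] at h2
  exact h2

theorem main (hl1 : T_leg1) (hl2 : T_leg2) (hw : T_wirt) (D : Cor u uz up C) :
    2 * ∫ z, ∫ φ, u z φ ^ 2 ∂mp ∂mz ≤
      ∫ z, ∫ φ, ((1 - z ^ 2) * uz z φ ^ 2 + up z φ ^ 2 / (1 - z ^ 2)) ∂mp ∂mz := by
  have hC := D.C0
  have hu : ∀ z, Continuous (fun φ => u z φ) := fun z =>
    D.c0.comp (continuous_const.prodMk continuous_id)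
  have hup : ∀ z, Continuous (fun φ => up z φ) := fun z =>
    D.c2.comp (continuous_const.prodMk continuous_id)
  -- bounds for `f0`
  obtain ⟨B0, hB0⟩ := (isCompact_Icc (a := (-1 : ℝ)) (b := 1)).exists_bound_of_continuousOn
    D.f0_cont.continuousOn
  have hf0i : Integrable (fun z => f0 u z ^ 2) mz := by
    refine int1 _ (B0 ^ 2) (D.f0_cont.pow 2).continuousOn fun z hz => ?_
    rw [abs_of_nonneg (sq_nonneg _), ← sq_abs]
    exact pow_le_pow_left₀ (abs_nonneg _) (hB0 z ⟨hz.1.le, hz.2.le⟩) 2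
  have hf1i : Integrable (fun z => (1 - z ^ 2) * f0 uz z ^ 2) mz := by
    refine int1 _ (C ^ 2) ?_ fun z hz => ?_
    · have h2 : ContinuousOn (fun p : ℝ => 1 - p ^ 2) (Ioo (-1) 1) := by fun_prop
      exact h2.mul (D.f1_cont.pow 2)
    · rw [abs_of_nonneg (mul_nonneg (sq_pos hz).le (sq_nonneg _))]
      exact sq_bd (D.f1_bd z hz) (sq_pos hz)
  -- step 1
  have s1 : 2 * ∫ z, f0 u z ^ 2 ∂mz ≤ ∫ z, (1 - z ^ 2) * f0 uz z ^ 2 ∂mz := by
    have h := hl1 (f0 u) (f0 uz) (C ^ 2) D.f0_cont.continuousOn D.f0_der D.f1_cont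
      (fun z hz => sq_bd (D.f1_bd z hz) (sq_pos hz)) ?_
    · rwa [izE, izE] at h
    · rw [izE]
      unfold f0
      rw [integral_const_mul]
      simp_rw [ipE]
      rw [D.zero, mul_zero]
  -- step 2
  have bG0 : ∀ z ∈ Ioo (-1 : ℝ) 1, ∀ φ ∈ Ioc (-π) π, |(u z φ - f0 u z) ^ 2| ≤ (2 * π * C) ^ 2 := by
    intro z hz φ hφ
    rw [abs_of_nonneg (sq_nonneg _)]
    refine (D.b_g z hz φ ⟨hφ.1.le, hφ.2⟩).trans ?_
    have h1 : 1 - z ^ 2 ≤ 1 := by nlinarith [sq_nonneg z]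
    nlinarith [sq_nonneg (2 * π * C)]
  have bG1 : ∀ z ∈ Ioo (-1 : ℝ) 1, ∀ φ ∈ Ioc (-π) π,
      |(1 - z ^ 2) * (uz z φ - f0 uz z) ^ 2| ≤ (2 * C) ^ 2 := by
    intro z hz φ hφ
    rw [abs_of_nonneg (mul_nonneg (sq_pos hz).le (sq_nonneg _))]
    exact D.b_gz z hz φ
  have bG2 : ∀ z ∈ Ioo (-1 : ℝ) 1, ∀ φ ∈ Ioc (-π) π,
      |(u z φ - f0 u z) ^ 2 / (1 - z ^ 2)| ≤ (2 * π * C) ^ 2 := by
    intro z hz φ hφ
    rw [abs_of_nonneg (div_nonneg (sq_nonneg _) (sq_pos hz).le)]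
    exact D.b_gd z hz φ ⟨hφ.1.le, hφ.2⟩
  have s2 : 2 * ∫ z, ∫ φ, (u z φ - f0 u z) ^ 2 ∂mp ∂mz ≤
      (∫ z, ∫ φ, (1 - z ^ 2) * (uz z φ - f0 uz z) ^ 2 ∂mp ∂mz) +
      ∫ z, ∫ φ, (u z φ - f0 u z) ^ 2 / (1 - z ^ 2) ∂mp ∂mz := by
    rw [← swapW (fun z φ => (u z φ - f0 u z) ^ 2) _ D.cW0 bG0,
      ← swapW (fun z φ => (1 - z ^ 2) * (uz z φ - f0 uz z) ^ 2) _ D.cW1 bG1,
      ← swapW (fun z φ => (u z φ - f0 u z) ^ 2 / (1 - z ^ 2)) _ (cdiv D.cW0) bG2,
      ← integral_const_mul, ← integral_add (intp _ _ D.cW1 bG1) (intp _ _ (cdiv D.cW0) bG2)]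
    refine integral_mono_ae ((intp _ _ D.cW0 bG0).const_mul 2)
      ((intp _ _ D.cW1 bG1).add (intp _ _ (cdiv D.cW0) bG2)) ?_
    refine (ae_restrict_iff' measurableSet_Ioc).2 (ae_of_all _ fun φ hφ => ?_)
    have hφ' : φ ∈ Icc (-π) π := ⟨hφ.1.le, hφ.2⟩
    have h := hl2 (fun z => u z φ - f0 u z) (fun z => uz z φ - f0 uz z)
      ((2 * C) ^ 2 + (2 * π * C) ^ 2)
      (fun z hz => (D.d1 z hz φ).sub (D.f0_der z hz)) ?_ ?_ ?_
    · rwa [izE, izE, izE] at h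
    · refine ContinuousOn.sub ?_ D.f1_cont
      have h5 : ContinuousOn (fun z : ℝ => (z, φ)) (Ioo (-1) 1) := by fun_prop
      have h6 := D.c1.comp h5 (fun z hz => ⟨hz, mem_univ _⟩)
      exact h6
    · intro z hz
      have := D.b_gz z hz φ
      have h7 := sq_nonneg (2 * π * C)
      linarith
    · intro z hz
      have h8 := D.b_g z hz φ hφ'
      have h7 := mul_nonneg (sq_nonneg (2 * C)) (sq_pos hz).le
      have h9 : ((2 * C) ^ 2 + (2 * π * C) ^ 2) * (1 - z ^ 2) =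
          (2 * C) ^ 2 * (1 - z ^ 2) + (2 * π * C) ^ 2 * (1 - z ^ 2) := by ring
      beta_reduce
      linarith
  -- step 3
  have s3 : ∀ z, z ∈ Ioo (-1 : ℝ) 1 → ∫ φ, (u z φ - f0 u z) ^ 2 ∂mp ≤ ∫ φ, up z φ ^ 2 ∂mp := by
    intro z hz
    have h := hw (fun φ => u z φ - f0 u z) (fun φ => up z φ)
      (fun φ => (D.d2 z φ).sub_const _) (hup z) ?_ ?_
    · rwa [ipE, ipE] at h
    · beta_reduce
      rw [D.per z]
    · rw [intervalIntegral.integral_sub ((hu z).intervalIntegrable _ _)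
        (continuous_const.intervalIntegrable _ _), intervalIntegral.integral_const, smul_eq_mul]
      unfold f0
      field_simp
      ring
  -- step 4
  have s4 : ∫ z, ∫ φ, u z φ ^ 2 ∂mp ∂mz = 2 * π * ∫ z, f0 u z ^ 2 ∂mz +
      ∫ z, ∫ φ, (u z φ - f0 u z) ^ 2 ∂mp ∂mz := by
    rw [← integral_const_mul, ← integral_add (hf0i.const_mul _) (intz _ _ D.cW0 bG0)]
    refine integral_congr_ae (ae_of_all _ fun z => ?_)
    exact orth _ (hu z)
  -- step 5
  have hupi : ∀ z, Integrable (fun φ => up z φ ^ 2) mp := fun z =>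
    ((((hup z).pow 2).intervalIntegrable (-π) π).1)
  have huzi : ∀ z ∈ Ioo (-1 : ℝ) 1, Integrable (fun φ => uz z φ ^ 2) mp := fun z hz =>
    (((((D.uz_cont z hz)).pow 2).intervalIntegrable (-π) π).1)
  have cR : ContinuousOn (fun p : ℝ × ℝ => (1 - p.1 ^ 2) * uz p.1 p.2 ^ 2 +
      up p.1 p.2 ^ 2 / (1 - p.1 ^ 2)) (Ioo (-1) 1 ×ˢ univ) := by
    have h2 : ContinuousOn (fun p : ℝ × ℝ => 1 - p.1 ^ 2) (Ioo (-1) 1 ×ˢ univ) := by fun_prop
    exact (h2.mul (D.c1.pow 2)).add (cdiv (D.c2.pow 2).continuousOn)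
  have bR : ∀ z ∈ Ioo (-1 : ℝ) 1, ∀ φ ∈ Ioc (-π) π,
      |(1 - z ^ 2) * uz z φ ^ 2 + up z φ ^ 2 / (1 - z ^ 2)| ≤ C ^ 2 + C ^ 2 := by
    intro z hz φ _
    rw [abs_of_nonneg (add_nonneg (mul_nonneg (sq_pos hz).le (sq_nonneg _))
      (div_nonneg (sq_nonneg _) (sq_pos hz).le))]
    exact add_le_add (sq_bd (D.b1 z hz φ) (sq_pos hz)) (D.b_up z hz φ)
  have s5 : 2 * π * (∫ z, (1 - z ^ 2) * f0 uz z ^ 2 ∂mz) +
      ((∫ z, ∫ φ, (1 - z ^ 2) * (uz z φ - f0 uz z) ^ 2 ∂mp ∂mz) +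
      ∫ z, ∫ φ, (u z φ - f0 u z) ^ 2 / (1 - z ^ 2) ∂mp ∂mz) ≤
      ∫ z, ∫ φ, ((1 - z ^ 2) * uz z φ ^ 2 + up z φ ^ 2 / (1 - z ^ 2)) ∂mp ∂mz := by
    have i1 := hf1i.const_mul (2 * π)
    have i2 := intz (fun z φ => (1 - z ^ 2) * (uz z φ - f0 uz z) ^ 2) _ D.cW1 bG1
    have i3 := intz (fun z φ => (u z φ - f0 u z) ^ 2 / (1 - z ^ 2)) _ (cdiv D.cW0) bG2
    have i4 : Integrable (fun z => (∫ φ, (1 - z ^ 2) * (uz z φ - f0 uz z) ^ 2 ∂mp) +
      ∫ φ, (u z φ - f0 u z) ^ 2 / (1 - z ^ 2) ∂mp) mz := i2.add i3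
    rw [← integral_const_mul, ← integral_add i2 i3, ← integral_add i1 i4]
    refine integral_mono_ae (i1.add i4) (intz _ _ cR bR) ?_
    refine (ae_restrict_iff' measurableSet_Ioo).2 (ae_of_all _ fun z hz => ?_)
    have hp := sq_pos hz
    beta_reduce
    have e1 := orth (fun φ => uz z φ) (D.uz_cont z hz)
    have e2 := s3 z hz
    have e3 : ∫ φ, ((1 - z ^ 2) * uz z φ ^ 2 + up z φ ^ 2 / (1 - z ^ 2)) ∂mp =
        (1 - z ^ 2) * (∫ φ, uz z φ ^ 2 ∂mp) + (∫ φ, up z φ ^ 2 ∂mp) / (1 - z ^ 2) := by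
      rw [integral_add ((huzi z hz).const_mul _) ((hupi z).div_const _), integral_const_mul,
        integral_div]
    rw [e3, e1, integral_const_mul, integral_div]
    have e4 : (∫ φ, (u z φ - f0 u z) ^ 2 ∂mp) / (1 - z ^ 2) ≤
        (∫ φ, up z φ ^ 2 ∂mp) / (1 - z ^ 2) := div_le_div_of_nonneg_right e2 hp.le
    unfold f0 at e4 ⊢
    linarith
  rw [s4]
  have hpi := pi_pos
  have s1' := mul_le_mul_of_nonneg_left s1 (show 0 ≤ 2 * π by positivity)
  linarith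

end Cor

/-! ### spherical coordinates -/

theorem sph_cont : Continuous (fun q : ℝ × ℝ × ℝ => sph q.1 q.2.1 q.2.2) := by
  unfold sph
  refine (PiLp.continuous_toLp 2 _).comp (continuous_pi fun i => ?_)
  fin_cases i
  · simp only [Fin.zero_eta, Matrix.cons_val_zero]
    fun_prop
  · simp only [Fin.mk_one, Matrix.cons_val_one, Matrix.cons_val_zero]
    fun_prop
  · simp only [Fin.reduceFinMk, Matrix.cons_val]
    fun_prop

theorem sph_0 (r z φ : ℝ) : sph r z φ 0 = r * √(1 - z ^ 2) * cos φ := rfl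
theorem sph_1 (r z φ : ℝ) : sph r z φ 1 = r * √(1 - z ^ 2) * sin φ := rfl
theorem sph_2 (r z φ : ℝ) : sph r z φ 2 = r * z := rfl

theorem sph_ne {r : ℝ} (hr : 0 < r) (z φ : ℝ) : sph r z φ ≠ 0 := by
  intro h
  have h2 : r * z = 0 := by
    rw [← sph_2 r z φ, h]
    rfl
  have hz : z = 0 := by
    rcases mul_eq_zero.1 h2 with h3 | h3
    · exact absurd h3 hr.ne'
    · exact h3
  have h0 : r * √(1 - z ^ 2) * cos φ = 0 := by
    rw [← sph_0 r z φ, h]
    rfl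
  have h1 : r * √(1 - z ^ 2) * sin φ = 0 := by
    rw [← sph_1 r z φ, h]
    rfl
  subst hz
  simp only [ne_eq, OfNat.ofNat_ne_zero, not_false_eq_true, zero_pow, sub_zero, Real.sqrt_one,
    mul_one, mul_eq_zero] at h0 h1
  have := sin_sq_add_cos_sq φ
  rcases h0 with h0 | h0
  · exact hr.ne' h0
  · rcases h1 with h1 | h1
    · exact hr.ne' h1
    · rw [h0, h1] at this
      norm_num at this

theorem sph_norm {r : ℝ} (hr : 0 < r) {z : ℝ} (hz : z ∈ Icc (-1 : ℝ) 1) (φ : ℝ) :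
    ‖sph r z φ‖ = r := by
  have h1 : 0 ≤ 1 - z ^ 2 := by nlinarith [hz.1, hz.2]
  have h2 : ‖sph r z φ‖ ^ 2 = r ^ 2 := by
    rw [EuclideanSpace.norm_sq_eq, Fin.sum_univ_three, sph_0, sph_1, sph_2]
    simp only [Real.norm_eq_abs, sq_abs]
    rw [mul_pow, mul_pow, mul_pow, mul_pow, mul_pow, Real.sq_sqrt h1]
    have := sin_sq_add_cos_sq φ
    linear_combination (r ^ 2 * (1 - z ^ 2)) * this
  exact (pow_left_inj₀ (norm_nonneg _) hr.le two_ne_zero).1 h2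

/-- integral over the sphere of radius `r` -/
noncomputable def Nf (W : E3 → ℝ) (r : ℝ) : ℝ :=
  ∫ z in (-1 : ℝ)..1, ∫ φ in (-π)..π, W (sph r z φ)

theorem Nf_cont (W : E3 → ℝ) (hW : ContinuousOn W {x | x ≠ 0}) : ContinuousOn (Nf W) (Ioi 0) := by
  have h1 : Continuous (fun q : ℝ × ℝ × ℝ => W (sph (exp q.1) q.2.1 q.2.2)) := by
    have h2 : Continuous (fun q : ℝ × ℝ × ℝ => sph (exp q.1) q.2.1 q.2.2) :=
      sph_cont.comp (f := fun q : ℝ × ℝ × ℝ => (exp q.1, q.2.1, q.2.2)) (by fun_prop)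
    exact hW.comp_continuous h2 (fun q => sph_ne (exp_pos _) _ _)
  have h3 : Continuous (fun p : ℝ × ℝ => ∫ φ in (-π)..π, W (sph (exp p.1) p.2 φ)) := by
    refine intervalIntegral.continuous_parametric_intervalIntegral_of_continuous'
      (f := fun (p : ℝ × ℝ) φ => W (sph (exp p.1) p.2 φ)) ?_ _ _
    exact h1.comp (f := fun q : (ℝ × ℝ) × ℝ => (q.1.1, q.1.2, q.2)) (by fun_prop)
  have h4 : Continuous (fun ρ : ℝ => ∫ z in (-1 : ℝ)..1, ∫ φ in (-π)..π, W (sph (exp ρ) z φ)) :=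
    intervalIntegral.continuous_parametric_intervalIntegral_of_continuous'
      (f := fun ρ z => ∫ φ in (-π)..π, W (sph (exp ρ) z φ)) h3 _ _
  have h5 : ContinuousOn (fun r : ℝ => ∫ z in (-1 : ℝ)..1, ∫ φ in (-π)..π,
      W (sph (exp (log r)) z φ)) (Ioi 0) :=
    h4.comp_continuousOn (continuousOn_log.mono fun x hx => (show (0 : ℝ) < x from hx).ne')
  refine h5.congr fun r hr => ?_
  unfold Nf
  beta_reduce
  rw [exp_log hr]

theorem cont_of_supp {X : Type*} [TopologicalSpace X] (k A : X → ℝ) (U : Set X) (hU : IsOpen U)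
    (hk : Continuous k) (hs : tsupport k ⊆ U) (hA : ContinuousOn A U) :
    Continuous (fun x => k x * A x) := by
  rw [continuous_iff_continuousAt]
  intro x
  by_cases hx : x ∈ tsupport k
  · exact hk.continuousAt.mul (hA.continuousAt (hU.mem_nhds (hs hx)))
  · have h1 : (fun x => k x * A x) =ᶠ[𝓝 x] fun _ => 0 := by
      have h2 : k =ᶠ[𝓝 x] 0 := notMem_tsupport_iff_eventuallyEq.1 hx
      filter_upwards [h2] with y hy
      rw [hy]
      simp
    exact continuousAt_const.congr h1.symm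

theorem radial (hs : T_sphc) (W : E3 → ℝ) (hW : ContinuousOn W {x | x ≠ 0}) (k : ℝ → ℝ)
    (hk : Continuous k) (hkc : HasCompactSupport k) (hk0 : tsupport k ⊆ Ioi 0) :
    ∫ x, k ‖x‖ * W x = ∫ r in Ioi (0 : ℝ), k r * (r ^ 2 * Nf W r) ∧
    IntegrableOn (fun r => k r * (r ^ 2 * Nf W r)) (Ioi 0) := by
  have hk0' : k 0 = 0 := by
    by_contra h
    have := hk0 (subset_tsupport k h)
    exact lt_irrefl _ (show (0 : ℝ) < 0 from this)
  have hc : Continuous (fun x : E3 => k ‖x‖ * W x) := by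
    refine cont_of_supp (fun x : E3 => k ‖x‖) W {x | x ≠ 0} isOpen_ne
      (hk.comp continuous_norm) ?_ hW
    intro x hx
    have h1 : tsupport (fun x : E3 => k ‖x‖) ⊆ (fun x : E3 => ‖x‖) ⁻¹' tsupport k :=
      tsupport_comp_subset_preimage k continuous_norm
    have h2 : (0 : ℝ) < ‖x‖ := hk0 (h1 hx)
    exact norm_pos_iff.1 h2
  have hcs : HasCompactSupport (fun x : E3 => k ‖x‖ * W x) := by
    obtain ⟨R, hR⟩ := (hkc.isCompact.isBounded).exists_norm_le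
    refine HasCompactSupport.intro (isCompact_closedBall (0 : E3) R) fun x hx => ?_
    have h1 : k ‖x‖ = 0 := by
      by_contra h
      have h2 := hR ‖x‖ (subset_tsupport k h)
      rw [norm_norm] at h2
      exact hx (mem_closedBall_zero_iff.2 h2)
    rw [h1, zero_mul]
  constructor
  · rw [hs _ hc hcs]
    refine setIntegral_congr_fun measurableSet_Ioi fun r hr => ?_
    have hr : 0 < r := hr
    beta_reduce
    unfold Nf
    rw [← mul_assoc, ← intervalIntegral.integral_const_mul]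
    refine intervalIntegral.integral_congr fun z hz => ?_
    rw [uIcc_of_le (by norm_num)] at hz
    beta_reduce
    rw [← intervalIntegral.integral_const_mul]
    refine intervalIntegral.integral_congr fun φ _ => ?_
    beta_reduce
    rw [sph_norm hr hz φ]
    ring
  · have h1 : Continuous (fun r => k r * (r ^ 2 * Nf W r)) := by
      refine cont_of_supp k _ (Ioi 0) isOpen_Ioi hk hk0 ?_
      exact ContinuousOn.mul (by fun_prop) (Nf_cont W hW)
    have h2 : HasCompactSupport (fun r => k r * (r ^ 2 * Nf W r)) := hkc.mul_right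
    exact (h1.integrable_of_hasCompactSupport h2).integrableOn

theorem der_toLp (f : ℝ → Fin 3 → ℝ) (f' : Fin 3 → ℝ) (t : ℝ)
    (h : ∀ i, HasDerivAt (fun t => f t i) (f' i) t) :
    HasDerivAt (fun t => (WithLp.toLp 2 (f t) : E3)) (WithLp.toLp 2 f') t := by
  have h1 : HasDerivAt f f' t := hasDerivAt_pi.2 h
  exact ((PiLp.continuousLinearEquiv 2 ℝ (fun _ : Fin 3 => ℝ)).symm.toContinuousLinearMap
    |>.hasFDerivAt.comp_hasDerivAt t h1)

theorem fd_sum (F : E3 → ℝ) (x w : E3) :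
    fderiv ℝ F x w = w 0 * pd 0 F x + w 1 * pd 1 F x + w 2 * pd 2 F x := by
  have hw' : w = ∑ i, w i • (EuclideanSpace.single i (1 : ℝ) : E3) := by
    ext j
    simp [Finset.sum_apply, Pi.single_apply]
  conv_lhs => rw [hw']
  rw [map_sum, Fin.sum_univ_three]
  simp only [map_smul, smul_eq_mul, pd]

section

variable (F : E3 → ℝ) (r : ℝ)

/-- `∂_z` -/
noncomputable def uz (z φ : ℝ) : ℝ :=
  r * (-z / √(1 - z ^ 2) * (cos φ * pd 0 F (sph r z φ) + sin φ * pd 1 F (sph r z φ))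
    + pd 2 F (sph r z φ))

/-- `∂_φ` -/
noncomputable def up (z φ : ℝ) : ℝ :=
  r * √(1 - z ^ 2) * (-sin φ * pd 0 F (sph r z φ) + cos φ * pd 1 F (sph r z φ))

variable {F r}

theorem F_der (hF : ContDiffOn ℝ 1 F {x | x ≠ 0}) {x : E3} (hx : x ≠ 0) :
    HasFDerivAt F (fderiv ℝ F x) x :=
  ((hF.differentiableOn one_ne_zero).differentiableAt (isOpen_ne.mem_nhds hx)).hasFDerivAt

theorem pd_cont (hF : ContDiffOn ℝ 1 F {x | x ≠ 0}) (i : Fin 3) :
    ContinuousOn (pd i F) {x | x ≠ 0} := by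
  have h1 := hF.continuousOn_fderiv_of_isOpen isOpen_ne le_rfl
  exact h1.clm_apply continuousOn_const

theorem d_z (hF : ContDiffOn ℝ 1 F {x | x ≠ 0}) (hr : 0 < r) {z : ℝ} (hz : z ∈ Ioo (-1 : ℝ) 1)
    (φ : ℝ) : HasDerivAt (fun z => F (sph r z φ)) (uz F r z φ) z := by
  have hp : 0 < 1 - z ^ 2 := Cor.sq_pos hz
  have h1 : HasDerivAt (fun z : ℝ => √(1 - z ^ 2)) (-z / √(1 - z ^ 2)) z := by
    have h2 : HasDerivAt (fun z : ℝ => 1 - z ^ 2) (-(2 * z)) z := by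
      have := (hasDerivAt_pow 2 z).const_sub 1
      simpa using this
    have h3 := h2.sqrt hp.ne'
    convert h3 using 1
    field_simp
  have h4 : HasDerivAt (fun z => sph r z φ) (WithLp.toLp 2
      ![r * (-z / √(1 - z ^ 2)) * cos φ, r * (-z / √(1 - z ^ 2)) * sin φ, r]) z := by
    unfold sph
    refine der_toLp _ _ z fun i => ?_
    fin_cases i
    · simp only [Fin.zero_eta, Matrix.cons_val_zero]
      exact (h1.const_mul r).mul_const _
    · simp only [Fin.mk_one, Matrix.cons_val_one, Matrix.cons_val_zero]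
      exact (h1.const_mul r).mul_const _
    · simp only [Fin.reduceFinMk, Matrix.cons_val]
      simpa using (hasDerivAt_id z).const_mul r
  have h5 := (F_der hF (sph_ne hr z φ)).comp_hasDerivAt z h4
  rw [fd_sum] at h5
  refine h5.congr_deriv ?_
  unfold uz
  simp only [Matrix.cons_val_zero, Matrix.cons_val_one, Matrix.cons_val]
  ring

theorem d_p (hF : ContDiffOn ℝ 1 F {x | x ≠ 0}) (hr : 0 < r) (z : ℝ)
    (φ : ℝ) : HasDerivAt (fun φ => F (sph r z φ)) (up F r z φ) φ := by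
  have h4 : HasDerivAt (fun φ => sph r z φ) (WithLp.toLp 2
      ![r * √(1 - z ^ 2) * (-sin φ), r * √(1 - z ^ 2) * cos φ, 0]) φ := by
    unfold sph
    refine der_toLp _ _ φ fun i => ?_
    fin_cases i
    · simp only [Fin.zero_eta, Matrix.cons_val_zero]
      exact (hasDerivAt_cos φ).const_mul _
    · simp only [Fin.mk_one, Matrix.cons_val_one, Matrix.cons_val_zero]
      exact (hasDerivAt_sin φ).const_mul _
    · simp only [Fin.reduceFinMk, Matrix.cons_val]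
      exact hasDerivAt_const _ _
  have h5 := (F_der hF (sph_ne hr z φ)).comp_hasDerivAt φ h4
  rw [fd_sum] at h5
  refine h5.congr_deriv ?_
  unfold up
  simp only [Matrix.cons_val_zero, Matrix.cons_val_one, Matrix.cons_val]
  ring

/-- the tangential part of the gradient, times `|x|²` -/
noncomputable def Tg (F : E3 → ℝ) (x : E3) : ℝ :=
  ‖x‖ ^ 2 * ((∑ i, pd i F x ^ 2) - (∑ i, x i / ‖x‖ * pd i F x) ^ 2)

theorem Tg_eq (hr : 0 < r) {z : ℝ} (hz : z ∈ Ioo (-1 : ℝ) 1) (φ : ℝ) :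
    (1 - z ^ 2) * uz F r z φ ^ 2 + up F r z φ ^ 2 / (1 - z ^ 2) = Tg F (sph r z φ) := by
  have hp : 0 < 1 - z ^ 2 := Cor.sq_pos hz
  have hP : 0 < √(1 - z ^ 2) := Real.sqrt_pos.2 hp
  have hP2 : √(1 - z ^ 2) ^ 2 = 1 - z ^ 2 := Real.sq_sqrt hp.le
  unfold Tg uz up
  rw [sph_norm hr ⟨hz.1.le, hz.2.le⟩ φ, Fin.sum_univ_three, Fin.sum_univ_three, sph_0, sph_1,
    sph_2]
  generalize pd 0 F (sph r z φ) = a
  generalize pd 1 F (sph r z φ) = b
  generalize pd 2 F (sph r z φ) = c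
  have e1 : r * √(1 - z ^ 2) * cos φ / r = √(1 - z ^ 2) * cos φ := by field_simp
  have e2 : r * √(1 - z ^ 2) * sin φ / r = √(1 - z ^ 2) * sin φ := by field_simp
  have e3 : r * z / r = z := by field_simp
  rw [e1, e2, e3]
  generalize √(1 - z ^ 2) = P at *
  rw [← hP2]
  have hcs := sin_sq_add_cos_sq φ
  have h5 : P ^ 2 * (r * (-z / P * (cos φ * a + sin φ * b) + c)) ^ 2 =
      r ^ 2 * (-z * (cos φ * a + sin φ * b) + P * c) ^ 2 := by
    field_simp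
  have h6 : (r * P * (-sin φ * a + cos φ * b)) ^ 2 / P ^ 2 =
      r ^ 2 * (-sin φ * a + cos φ * b) ^ 2 := by
    field_simp
  rw [h5, h6]
  linear_combination (r ^ 2 * (a ^ 2 + b ^ 2)) * hcs +
    (r ^ 2 * (c ^ 2 + (cos φ * a + sin φ * b) ^ 2)) * hP2

theorem Tg_cont (hF : ContDiffOn ℝ 1 F {x | x ≠ 0}) : ContinuousOn (Tg F) {x | x ≠ 0} := by
  unfold Tg
  refine (continuous_norm.continuousOn.pow 2).mul ?_
  refine ContinuousOn.sub (continuousOn_finset_sum _ fun i _ => (pd_cont hF i).pow 2) ?_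
  refine ContinuousOn.pow (continuousOn_finset_sum _ fun i _ => ?_) 2
  refine ContinuousOn.mul ?_ (pd_cont hF i)
  refine ContinuousOn.div (by fun_prop) continuous_norm.continuousOn fun x hx => ?_
  exact (norm_pos_iff.2 hx).ne'

theorem cor (hF : ContDiffOn ℝ 1 F {x | x ≠ 0}) (hr : 0 < r) (h0 : Nf F r = 0) :
    ∃ C, Cor (fun z φ => F (sph r z φ)) (uz F r) (up F r) C := by
  -- bound of the partial derivatives on the sphere
  have hsub : Metric.sphere (0 : E3) r ⊆ {x | x ≠ 0} := by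
    intro x hx
    rw [mem_sphere_zero_iff_norm] at hx
    exact norm_pos_iff.1 (by rw [hx]; exact hr)
  have hb : ∀ i, ∃ K, ∀ x ∈ Metric.sphere (0 : E3) r, ‖pd i F x‖ ≤ K := fun i =>
    (isCompact_sphere (0 : E3) r).exists_bound_of_continuousOn ((pd_cont hF i).mono hsub)
  choose Kf hKf using hb
  set K : ℝ := |Kf 0| + |Kf 1| + |Kf 2| with hK
  have hK0 : 0 ≤ K := by positivity
  have hKb : ∀ i (z : ℝ), z ∈ Ioo (-1 : ℝ) 1 → ∀ φ, |pd i F (sph r z φ)| ≤ K := by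
    intro i z hz φ
    have h1 := hKf i (sph r z φ) (by
      rw [mem_sphere_zero_iff_norm]
      exact sph_norm hr ⟨hz.1.le, hz.2.le⟩ φ)
    have h2 : |Kf i| ≤ K := by
      fin_cases i
      · simp only [hK, Fin.zero_eta]
        linarith [abs_nonneg (Kf 1), abs_nonneg (Kf 2)]
      · simp only [hK, Fin.mk_one]
        linarith [abs_nonneg (Kf 0), abs_nonneg (Kf 2)]
      · simp only [hK, Fin.reduceFinMk]
        linarith [abs_nonneg (Kf 0), abs_nonneg (Kf 1)]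
    exact (h1.trans (le_abs_self _)).trans h2
  have hcomp : ∀ W : E3 → ℝ, ContinuousOn W {x | x ≠ 0} →
      Continuous (fun p : ℝ × ℝ => W (sph r p.1 p.2)) := by
    intro W hW
    refine hW.comp_continuous (f := fun p : ℝ × ℝ => sph r p.1 p.2) ?_ (fun q => sph_ne hr _ _)
    exact sph_cont.comp (f := fun q : ℝ × ℝ => (r, q.1, q.2)) (by fun_prop)
  refine ⟨r * (3 * K), ?_, ?_, ?_, ?_, ?_, ?_, ?_, ?_, ?_⟩
  · exact hcomp F hF.continuousOn
  · unfold uz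
    have c0 := (hcomp _ (pd_cont hF 0)).continuousOn (s := Ioo (-1 : ℝ) 1 ×ˢ (univ : Set ℝ))
    have c1 := (hcomp _ (pd_cont hF 1)).continuousOn (s := Ioo (-1 : ℝ) 1 ×ˢ (univ : Set ℝ))
    have c2 := (hcomp _ (pd_cont hF 2)).continuousOn (s := Ioo (-1 : ℝ) 1 ×ˢ (univ : Set ℝ))
    have c3 : ContinuousOn (fun p : ℝ × ℝ => -p.1 / √(1 - p.1 ^ 2)) (Ioo (-1) 1 ×ˢ univ) := by
      refine ContinuousOn.div (by fun_prop) (by fun_prop) fun p hp => ?_
      exact (Real.sqrt_pos.2 (Cor.sq_pos hp.1)).ne'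
    have c4 : ContinuousOn (fun p : ℝ × ℝ => cos p.2) (Ioo (-1) 1 ×ˢ univ) := by fun_prop
    have c5 : ContinuousOn (fun p : ℝ × ℝ => sin p.2) (Ioo (-1) 1 ×ˢ univ) := by fun_prop
    exact continuousOn_const.mul ((c3.mul ((c4.mul c0).add (c5.mul c1))).add c2)
  · unfold up
    have c0 := hcomp _ (pd_cont hF 0)
    have c1 := hcomp _ (pd_cont hF 1)
    fun_prop
  · exact fun z hz φ => d_z hF hr hz φ
  · exact fun z φ => d_p hF hr z φ
  · intro z hz φ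
    have hp : 0 < 1 - z ^ 2 := Cor.sq_pos hz
    have hP : 0 < √(1 - z ^ 2) := Real.sqrt_pos.2 hp
    have hP1 : √(1 - z ^ 2) ≤ 1 := Real.sqrt_le_one.2 (by nlinarith [sq_nonneg z])
    have hz1 : |z| ≤ 1 := abs_le.2 ⟨hz.1.le, hz.2.le⟩
    have k0 := hKb 0 z hz φ
    have k1 := hKb 1 z hz φ
    have k2 := hKb 2 z hz φ
    have e : uz F r z φ * √(1 - z ^ 2) = r * (-z * (cos φ * pd 0 F (sph r z φ) +
        sin φ * pd 1 F (sph r z φ)) + √(1 - z ^ 2) * pd 2 F (sph r z φ)) := by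
      unfold uz
      field_simp
    have hw : |cos φ * pd 0 F (sph r z φ) + sin φ * pd 1 F (sph r z φ)| ≤ 2 * K := by
      refine (abs_add_le _ _).trans ?_
      rw [abs_mul, abs_mul]
      have a1 := mul_le_mul (abs_cos_le_one φ) k0 (abs_nonneg _) zero_le_one
      have a2 := mul_le_mul (abs_sin_le_one φ) k1 (abs_nonneg _) zero_le_one
      linarith
    calc |uz F r z φ| * √(1 - z ^ 2) = |uz F r z φ * √(1 - z ^ 2)| := by
          rw [abs_mul, abs_of_pos hP]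
      _ ≤ r * (3 * K) := by
        rw [e, abs_mul, abs_of_pos hr]
        refine mul_le_mul_of_nonneg_left ?_ hr.le
        refine (abs_add_le _ _).trans ?_
        rw [abs_mul, abs_mul, abs_neg, abs_of_pos hP]
        have a1 := mul_le_mul hz1 hw (abs_nonneg _) zero_le_one
        have a2 := mul_le_mul hP1 k2 (abs_nonneg _) zero_le_one
        linarith
  · intro z hz φ
    have hp : 0 < 1 - z ^ 2 := Cor.sq_pos hz
    have hP : 0 < √(1 - z ^ 2) := Real.sqrt_pos.2 hp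
    have k0 := hKb 0 z hz φ
    have k1 := hKb 1 z hz φ
    have hw : |-sin φ * pd 0 F (sph r z φ) + cos φ * pd 1 F (sph r z φ)| ≤ 3 * K := by
      refine (abs_add_le _ _).trans ?_
      rw [abs_mul, abs_mul, abs_neg]
      have a1 := mul_le_mul (abs_sin_le_one φ) k0 (abs_nonneg _) zero_le_one
      have a2 := mul_le_mul (abs_cos_le_one φ) k1 (abs_nonneg _) zero_le_one
      linarith
    unfold up
    rw [abs_mul, abs_mul, abs_of_pos hr, abs_of_pos hP]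
    calc r * √(1 - z ^ 2) * |-sin φ * pd 0 F (sph r z φ) + cos φ * pd 1 F (sph r z φ)|
        ≤ r * √(1 - z ^ 2) * (3 * K) := mul_le_mul_of_nonneg_left hw (by positivity)
      _ = r * (3 * K) * √(1 - z ^ 2) := by ring
  · intro z
    have : sph r z (-π) = sph r z π := by
      unfold sph
      rw [cos_neg, sin_neg, sin_pi, neg_zero]
    beta_reduce
    rw [this]
  · unfold Nf at h0
    rw [izE] at h0
    simp_rw [ipE] at h0
    exact h0

theorem ineq (hl1 : T_leg1) (hl2 : T_leg2) (hw : T_wirt) (hF : ContDiffOn ℝ 1 F {x | x ≠ 0})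
    (hr : 0 < r) (h0 : Nf F r = 0) : 2 * Nf (fun x => F x ^ 2) r ≤ Nf (Tg F) r := by
  obtain ⟨C, hC⟩ := cor hF hr h0
  have h1 := Cor.main hl1 hl2 hw hC
  have h2 : Nf (fun x => F x ^ 2) r = ∫ z, ∫ φ, F (sph r z φ) ^ 2 ∂mp ∂mz := by
    unfold Nf
    rw [izE]
    simp_rw [ipE]
  have h3 : Nf (Tg F) r = ∫ z, ∫ φ, ((1 - z ^ 2) * uz F r z φ ^ 2 +
      up F r z φ ^ 2 / (1 - z ^ 2)) ∂mp ∂mz := by
    unfold Nf
    rw [izE]
    simp_rw [ipE]
    refine setIntegral_congr_fun measurableSet_Ioo fun z hz => ?_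
    beta_reduce
    refine integral_congr_ae (ae_of_all _ fun φ => ?_)
    exact (Tg_eq hr hz φ).symm
  rw [h2, h3]
  exact h1

end

theorem poin (hs : T_sphc) (hl1 : T_leg1) (hl2 : T_leg2) (hw : T_wirt) : T_poin := by
  intro F hF hz k hk hkc hk0 hkn
  -- the means vanish
  have hN : EqOn (Nf F) 0 (Ioi 0) := by
    have hc : ContinuousOn (fun r : ℝ => r ^ 2 * Nf F r) (Ioi 0) :=
      ContinuousOn.mul (by fun_prop) (Nf_cont F hF.continuousOn)
    have h1 : ∀ᵐ r : ℝ, r ∈ Ioi (0 : ℝ) → r ^ 2 * Nf F r = 0 := by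
      refine IsOpen.ae_eq_zero_of_integral_contDiff_smul_eq_zero isOpen_Ioi
        (hc.locallyIntegrableOn measurableSet_Ioi) ?_
      intro g hg hgc hg0
      have h2 := (radial hs F hF.continuousOn g hg.continuous hgc hg0).1
      rw [hz g hg.continuous hgc hg0] at h2
      have h3 : ∫ r, g r • (r ^ 2 * Nf F r) = ∫ r in Ioi (0 : ℝ), g r * (r ^ 2 * Nf F r) := by
        rw [← integral_indicator measurableSet_Ioi]
        refine integral_congr_ae (ae_of_all _ fun r => ?_)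
        by_cases hr : r ∈ Ioi (0 : ℝ)
        · rw [Set.indicator_of_mem hr]
          rfl
        · rw [Set.indicator_of_notMem hr]
          have : g r = 0 := by
            by_contra h
            exact hr (hg0 (subset_tsupport g h))
          beta_reduce
          rw [this, zero_smul]
      rw [h3, ← h2]
    have h2 : (fun r : ℝ => r ^ 2 * Nf F r) =ᵐ[volume.restrict (Ioi 0)] 0 :=
      (ae_restrict_iff' measurableSet_Ioi).2 h1
    have h3 := Measure.eqOn_open_of_ae_eq h2 isOpen_Ioi hc continuousOn_const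
    intro r hr
    have h4 := h3 hr
    have hr' : (0 : ℝ) < r := hr
    simp only [Pi.zero_apply, mul_eq_zero] at h4
    rcases h4 with h4 | h4
    · exact absurd h4 (by positivity)
    · exact h4
  have r1 := radial hs (fun x => F x ^ 2) (hF.continuousOn.pow 2) k hk hkc hk0
  have r2 := radial hs (Tg F) (Tg_cont hF) k hk hkc hk0
  have e2 : ∫ x, k ‖x‖ * ‖x‖ ^ 2 * ((∑ i, pd i F x ^ 2) - (∑ i, x i / ‖x‖ * pd i F x) ^ 2) =
      ∫ x, k ‖x‖ * Tg F x := by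
    refine integral_congr_ae (ae_of_all _ fun x => ?_)
    unfold Tg
    ring
  rw [e2, r1.1, r2.1, ← integral_const_mul]
  refine integral_mono_ae (r1.2.const_mul 2) r2.2 ?_
  refine (ae_restrict_iff' measurableSet_Ioi).2 (ae_of_all _ fun r hr => ?_)
  have hr : 0 < r := hr
  have h5 := ineq hl1 hl2 hw hF hr (hN hr)
  have h6 : 0 ≤ k r * r ^ 2 := mul_nonneg (hkn r) (by positivity)
  beta_reduce
  have h7 := mul_le_mul_of_nonneg_left h5 h6
  calc 2 * (k r * (r ^ 2 * Nf (fun x => F x ^ 2) r))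
      = k r * r ^ 2 * (2 * Nf (fun x => F x ^ 2) r) := by ring
    _ ≤ k r * r ^ 2 * Nf (Tg F) r := h7
    _ = _ := by ring

end Pool.Agent.H66.HN
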